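import Pool.Agent.LibSchP.C1
import Pool.Agent.LibSchN.B8

/-! **L1.**  Klein's inequality for positive semidefinite matrices, `x^r`, `r > 1`, the concave
version `x^σ`, `0 < σ < 1`, the Young inequality of two positive semidefinite matrices, and the
derivative of `t ↦ tr (M + t Y)^σ` at a positive definite `M`. -/

open Matrix Filter Topology
open scoped ComplexOrder

namespace Pool.Agent.LibSchTw

open Pool.Agent.LibSchP

variable {n : Type} [Fintype n] [DecidableEq n]

theorem trace_ud_re (V : Matrix n n ℂ) (hV : V ∈ unitaryGroup n ℂ) (z : n → ℝ) :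
    trace (ud V z) = ((∑ j, z j : ℝ) : ℂ) := by
  unfold ud
  rw [Matrix.trace_mul_comm, ← Matrix.mul_assoc, a2_uu V hV, Matrix.one_mul, dg,
    Matrix.trace_diagonal, Complex.ofReal_sum]

/-- the double basis weights -/
theorem weights (V W : Matrix n n ℂ) (hV : V ∈ unitaryGroup n ℂ) (hW : W ∈ unitaryGroup n ℂ) :
    (∀ j, ∑ k, ‖(Vᴴ * W) j k‖ ^ 2 = 1) ∧ ∀ k, ∑ j, ‖(Vᴴ * W) j k‖ ^ 2 = 1 := by
  have hVV : V * Vᴴ = 1 := a2_uu' V hV
  have hVV' : Vᴴ * V = 1 := a2_uu V hV
  have hWW : W * Wᴴ = 1 := a2_uu' W hW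
  have hWW' : Wᴴ * W = 1 := a2_uu W hW
  have hS1 : (Vᴴ * W) * (Vᴴ * W)ᴴ = 1 := by
    rw [conjTranspose_mul, conjTranspose_conjTranspose]
    calc Vᴴ * W * (Wᴴ * V) = Vᴴ * (W * Wᴴ) * V := by simp only [Matrix.mul_assoc]
      _ = 1 := by rw [hWW, Matrix.mul_one, hVV']
  have hS2 : (Vᴴ * W)ᴴ * (Vᴴ * W) = 1 := by
    rw [conjTranspose_mul, conjTranspose_conjTranspose]
    calc Wᴴ * V * (Vᴴ * W) = Wᴴ * (V * Vᴴ) * W := by simp only [Matrix.mul_assoc]
      _ = 1 := by rw [hVV, Matrix.mul_one, hWW']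
  exact ⟨c1_row _ hS1, c1_col _ hS2⟩

/-- a general double basis inequality: if `α f(x) + β g(y) + γ h(x) k(y) ≥ 0` for all eigenvalues
then `α tr f(X) + β tr g(Y) + γ tr h(X) k(Y) ≥ 0`. -/
theorem double_basis (V W : Matrix n n ℂ) (hV : V ∈ unitaryGroup n ℂ) (hW : W ∈ unitaryGroup n ℂ)
    (f g h k : n → ℝ) (c : ℝ) (H : ∀ i j, 0 ≤ f i + g j + c * (h i * k j)) :
    0 ≤ (trace (ud V f)).re + (trace (ud W g)).re + c * (trace (ud V h * ud W k)).re := by
  obtain ⟨hrow, hcol⟩ := weights V W hV hW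
  rw [trace_ud_re V hV, trace_ud_re W hW, c1_trace, Complex.ofReal_re, Complex.ofReal_re,
    Complex.ofReal_re]
  have e1 : ∑ j, f j = ∑ j, ∑ l, ‖(Vᴴ * W) j l‖ ^ 2 * f j := by
    refine Finset.sum_congr rfl fun j _ => ?_
    rw [← Finset.sum_mul, hrow, one_mul]
  have e2 : ∑ l, g l = ∑ j, ∑ l, ‖(Vᴴ * W) j l‖ ^ 2 * g l := by
    rw [Finset.sum_comm]
    refine Finset.sum_congr rfl fun l _ => ?_
    rw [← Finset.sum_mul, hcol, one_mul]
  rw [e1, e2, Finset.mul_sum, ← Finset.sum_add_distrib, ← Finset.sum_add_distrib]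
  refine Finset.sum_nonneg fun j _ => ?_
  rw [Finset.mul_sum, ← Finset.sum_add_distrib, ← Finset.sum_add_distrib]
  refine Finset.sum_nonneg fun l _ => ?_
  have := mul_nonneg (sq_nonneg ‖(Vᴴ * W) j l‖) (H j l)
  calc (0 : ℝ) ≤ ‖(Vᴴ * W) j l‖ ^ 2 * (f j + g l + c * (h j * k l)) := this
    _ = _ := by ring

/-- **Young**: `Re tr X Y ≤ tr X^s / s + tr Y^r / r` -/
theorem young_psd (s r : ℝ) (hsr : s.HolderConjugate r) (X Y : Matrix n n ℂ)
    (hX : X.PosSemidef) (hY : Y.PosSemidef) :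
    (trace (X * Y)).re ≤ (trace (rp s X)).re / s + (trace (rp r Y)).re / r := by
  obtain ⟨V, hV, x, hx, rfl⟩ := ud_exists_nonneg X hX
  obtain ⟨W, hW, y, hy, rfl⟩ := ud_exists_nonneg Y hY
  rw [rp_ud s V hV, rp_ud r W hW]
  have h := double_basis V W hV hW (fun i => x i ^ s / s) (fun j => y j ^ r / r) x y (-1)
    (fun i j => by
      have := Real.young_inequality_of_nonneg (hx i) (hy j) hsr
      linarith)
  have e1 : (trace (ud V fun i => x i ^ s / s)).re = (trace (ud V fun i => x i ^ s)).re / s := by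
    rw [trace_ud_re V hV, trace_ud_re V hV, Complex.ofReal_re, Complex.ofReal_re, Finset.sum_div]
  have e2 : (trace (ud W fun i => y i ^ r / r)).re = (trace (ud W fun i => y i ^ r)).re / r := by
    rw [trace_ud_re W hW, trace_ud_re W hW, Complex.ofReal_re, Complex.ofReal_re, Finset.sum_div]
  rw [e1, e2] at h
  linarith

/-- **Klein**, convex power, positive semidefinite matrices -/
theorem klein_psd (r : ℝ) (hr : 1 < r) (X Y : Matrix n n ℂ) (hX : X.PosSemidef)
    (hY : Y.PosSemidef) :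
    (trace (rp r X)).re + r * (trace (rp (r - 1) X * (Y - X))).re ≤ (trace (rp r Y)).re := by
  obtain ⟨V, hV, x, hx, rfl⟩ := ud_exists_nonneg X hX
  obtain ⟨W, hW, y, hy, rfl⟩ := ud_exists_nonneg Y hY
  have hr0 : 0 < r := by linarith
  have hconj : (r / (r - 1)).HolderConjugate r := (Real.HolderConjugate.conjExponent hr).symm
  have hxr : ∀ i, x i ^ (r - 1) * x i = x i ^ r := by
    intro i
    rcases eq_or_lt_of_le (hx i) with h | h
    · rw [← h, mul_zero, Real.zero_rpow (by linarith)]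
    · rw [← Real.rpow_add_one h.ne']
      congr 1
      ring
  rw [rp_ud r V hV, rp_ud r W hW, rp_ud (r - 1) V hV, Matrix.mul_sub, trace_sub, Complex.sub_re,
    ud_mul V hV]
  have e1 : (trace (ud V fun k => x k ^ (r - 1) * x k)).re = (trace (ud V fun k => x k ^ r)).re := by
    congr 2
    funext k
    congr 1
    funext k
    exact hxr k
  rw [e1]
  have h := double_basis V W hV hW (fun i => (r - 1) * x i ^ r) (fun j => y j ^ r)
    (fun i => x i ^ (r - 1)) y (-r) (fun i j => by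
      have h1 := Real.young_inequality_of_nonneg (Real.rpow_nonneg (hx i) (r - 1)) (hy j) hconj
      have h2 : (x i ^ (r - 1)) ^ (r / (r - 1)) = x i ^ r := by
        rw [← Real.rpow_mul (hx i)]
        congr 1
        have : r - 1 ≠ 0 := by linarith
        field_simp
      rw [h2] at h1
      have h3 : x i ^ r / (r / (r - 1)) = (r - 1) * x i ^ r / r := by
        rw [div_div_eq_mul_div]
        ring
      rw [h3, ← add_div, le_div_iff₀ hr0] at h1
      linarith)
  have e2 : (trace (ud V fun i => (r - 1) * x i ^ r)).re =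
      (r - 1) * (trace (ud V fun i => x i ^ r)).re := by
    rw [trace_ud_re V hV, trace_ud_re V hV, Complex.ofReal_re, Complex.ofReal_re, Finset.mul_sum]
  rw [e2] at h
  linarith

/-- Klein, concave power: `X` positive definite, `Y` positive semidefinite -/
theorem klein_concave (σ : ℝ) (h0 : 0 < σ) (h1 : σ < 1) (X Y : Matrix n n ℂ) (hX : X.PosDef)
    (hY : Y.PosSemidef) :
    (trace (rp σ Y)).re ≤ (trace (rp σ X)).re + σ * (trace (rp (σ - 1) X * (Y - X))).re := by
  obtain ⟨V, hV, x, hx, rfl⟩ := ud_exists_pos X hX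
  obtain ⟨W, hW, y, hy, rfl⟩ := ud_exists_nonneg Y hY
  have hxr : ∀ i, x i ^ (σ - 1) * x i = x i ^ σ := by
    intro i
    rw [← Real.rpow_add_one (hx i).ne']
    congr 1
    ring
  rw [rp_ud σ V hV, rp_ud σ W hW, rp_ud (σ - 1) V hV, Matrix.mul_sub, trace_sub, Complex.sub_re,
    ud_mul V hV]
  have e1 : (trace (ud V fun k => x k ^ (σ - 1) * x k)).re = (trace (ud V fun k => x k ^ σ)).re := by
    congr 2
    funext k
    congr 1
    funext k
    exact hxr k
  rw [e1]
  have h := double_basis V W hV hW (fun i => (1 - σ) * x i ^ σ) (fun j => -(y j ^ σ))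
    (fun i => x i ^ (σ - 1)) y σ (fun i j => by
      have h1 := young_scalar σ (y j) (x i ^ σ) h0 h1 (hy j) (Real.rpow_pos_of_pos (hx i) _)
      have h2 : (x i ^ σ) ^ (1 - 1 / σ) = x i ^ (σ - 1) := by
        rw [← Real.rpow_mul (hx i).le]
        congr 1
        field_simp
      rw [h2] at h1
      linarith)
  have e2 : (trace (ud V fun i => (1 - σ) * x i ^ σ)).re =
      (1 - σ) * (trace (ud V fun i => x i ^ σ)).re := by
    rw [trace_ud_re V hV, trace_ud_re V hV, Complex.ofReal_re, Complex.ofReal_re, Finset.mul_sum]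
  have e3 : (trace (ud W fun j => -(y j ^ σ))).re = -(trace (ud W fun j => y j ^ σ)).re := by
    rw [trace_ud_re W hW, trace_ud_re W hW, Complex.ofReal_re, Complex.ofReal_re,
      Finset.sum_neg_distrib]
  rw [e2, e3] at h
  linarith

/-- derivative of `t ↦ tr (X + t H)^σ`, `0 < σ < 1`, `X` positive definite -/
theorem hasDerivAt_concave (σ : ℝ) (h0 : 0 < σ) (h1 : σ < 1) (X H : Matrix n n ℂ) (hX : X.PosDef)
    (hH : H.IsHermitian) : HasDerivAt (fun t : ℝ => (trace (rp σ (X + (t : ℂ) • H))).re)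
      (σ * (trace (rp (σ - 1) X * H)).re) 0 := by
  rw [hasDerivAt_iff_isLittleO, Asymptotics.isLittleO_iff]
  intro c hc
  have hg : Filter.Tendsto (fun t : ℝ => σ * (trace (rp (σ - 1) (X + (t : ℂ) • H) * H)).re)
      (nhds 0) (nhds (σ * (trace (rp (σ - 1) X * H)).re)) := by
    have hcont : Continuous fun M : Matrix n n ℂ => σ * (trace (M * H)).re := by
      fun_prop
    exact (hcont.tendsto _).comp (LibSchN.rp_tendsto (σ - 1) X H hX hH)
  have hg2 : ∀ᶠ t : ℝ in nhds 0, |σ * (trace (rp (σ - 1) (X + (t : ℂ) • H) * H)).re -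
      σ * (trace (rp (σ - 1) X * H)).re| < c := by
    have := (Metric.tendsto_nhds.1 hg) c hc
    simpa [Real.dist_eq] using this
  filter_upwards [hg2, LibSchN.posDef_near X H hX hH] with t ht hpd
  have k1 := klein_concave σ h0 h1 X (X + (t : ℂ) • H) hX hpd.posSemidef
  have k2 := klein_concave σ h0 h1 (X + (t : ℂ) • H) X hpd hX.posSemidef
  rw [add_sub_cancel_left, Matrix.mul_smul, trace_smul, smul_eq_mul, Complex.re_ofReal_mul] at k1
  rw [sub_add_cancel_left, Matrix.mul_neg, Matrix.mul_smul, trace_neg, trace_smul, smul_eq_mul,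
    Complex.neg_re, Complex.re_ofReal_mul] at k2
  simp only [Complex.ofReal_zero, zero_smul, add_zero, sub_zero, smul_eq_mul, Real.norm_eq_abs]
  set g := (trace (rp (σ - 1) (X + (t : ℂ) • H) * H)).re
  set g0 := (trace (rp (σ - 1) X * H)).re
  set f := (trace (rp σ (X + (t : ℂ) • H))).re
  set f0 := (trace (rp σ X)).re
  have h2 : f - f0 - t * (σ * g0) ≤ 0 := by linarith
  have h3 : -(t * (σ * g0 - σ * g)) ≤ f - f0 - t * (σ * g0) := by linarith
  rw [abs_of_nonpos h2]
  calc -(f - f0 - t * (σ * g0)) ≤ t * (σ * g0 - σ * g) := by linarith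
    _ ≤ |t * (σ * g0 - σ * g)| := le_abs_self _
    _ = |σ * g - σ * g0| * |t| := by rw [abs_mul, mul_comm, abs_sub_comm]
    _ ≤ c * |t| := by gcongr

/-- `tr (rp s X)` in terms of `pw` -/
theorem pw_eq_trace_rp (p : ℝ) (hp : 0 < p) {m : Type} [Fintype m] [DecidableEq m]
    (T : Matrix m n ℂ) : LibSch.pw p T = (trace (rp (p / 2) (Tᴴ * T))).re := by
  obtain ⟨U, hU, x, hx, hUx⟩ := ud_exists_nonneg (Tᴴ * T) (posSemidef_conjTranspose_mul_self T)
  rw [pw_ud p T U hU x hUx, hUx, rp_ud _ U hU, trace_ud_re U hU, Complex.ofReal_re]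

end Pool.Agent.LibSchTw
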