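import Pool.Agent.LibSchTw.C2
import Pool.Agent.LibSchA.B2
import Pool.Agent.LibSch.Two

/-! **F1.**  Tools: twists and traces, real symmetric `2 × 2` matrices, `FF` as a trace. -/

open Matrix Filter Topology
open scoped ComplexOrder

namespace Pool.Agent.LibSchTw

open Pool.Agent.LibSchP Pool.Agent.LibSchA

section gen

variable {n : Type} [Fintype n] [DecidableEq n]

theorem tw_tw (g : n → ℝ) (P : Matrix n n ℂ) (t u : ℝ) : tw g (tw g P t) u = tw g P (t + u) := by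
  ext j k
  simp only [tw, Matrix.of_apply]
  rw [← mul_assoc, ← Complex.ofReal_mul, ← Real.exp_add]
  congr 3
  ring

omit [DecidableEq n] in
theorem trace_tw (g : n → ℝ) (X Y : Matrix n n ℂ) (t : ℝ) :
    trace (tw g X t * Y) = trace (X * tw g Y t) := by
  simp only [Matrix.trace, Matrix.diag_apply, Matrix.mul_apply, tw, Matrix.of_apply]
  refine Finset.sum_congr rfl fun i _ => Finset.sum_congr rfl fun j _ => ?_
  rw [add_comm (g j) (g i)]
  ring

theorem tw_mul_inv (g : n → ℝ) (X Y : Matrix n n ℂ) (t : ℝ) (h : X * Y = 1) :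
    tw g X t * tw g Y (-t) = 1 := by
  rw [tw_eq, tw_eq]
  have h1 : dg (fun k => Real.exp (t * g k / 2)) * dg (fun k => Real.exp (-t * g k / 2)) = 1 := by
    unfold dg
    rw [Matrix.diagonal_mul_diagonal, ← Matrix.diagonal_one]
    congr 1
    funext k
    rw [← Complex.ofReal_mul, ← Real.exp_add]
    have : t * g k / 2 + -t * g k / 2 = 0 := by ring
    rw [this, Real.exp_zero, Complex.ofReal_one]
  calc dg (fun k => Real.exp (t * g k / 2)) * X * dg (fun k => Real.exp (t * g k / 2)) *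
        (dg (fun k => Real.exp (-t * g k / 2)) * Y * dg (fun k => Real.exp (-t * g k / 2)))
      = dg (fun k => Real.exp (t * g k / 2)) * X * (dg (fun k => Real.exp (t * g k / 2)) *
        dg (fun k => Real.exp (-t * g k / 2))) * Y * dg (fun k => Real.exp (-t * g k / 2)) := by
        simp only [Matrix.mul_assoc]
    _ = dg (fun k => Real.exp (t * g k / 2)) * (X * Y) * dg (fun k => Real.exp (-t * g k / 2)) := by
        rw [h1, Matrix.mul_one]
        simp only [Matrix.mul_assoc]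
    _ = 1 := by rw [h, Matrix.mul_one, h1]

theorem tw_posDef (g : n → ℝ) (P : Matrix n n ℂ) (hP : P.PosDef) (t : ℝ) : (tw g P t).PosDef := by
  have h1 := tw_psd g P hP.posSemidef t
  refine (Matrix.PosSemidef.posDef_iff_isUnit h1).2 ?_
  have hu : IsUnit P := hP.isUnit
  have h2 : P * P⁻¹ = 1 := Matrix.mul_nonsing_inv P ((Matrix.isUnit_iff_isUnit_det P).1 hu)
  have h3 := tw_mul_inv g P P⁻¹ t h2
  exact ⟨⟨_, _, h3, mul_eq_one_comm.1 h3⟩, rfl⟩

/-- powers of positive semidefinite matrices: `rp s (rp s' H) = rp (s' * s) H` -/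
theorem rp_rp' (s s' : ℝ) (H : Matrix n n ℂ) (hH : H.PosSemidef) :
    rp s (rp s' H) = rp (s' * s) H := by
  obtain ⟨U, hU, x, hx, rfl⟩ := ud_exists_nonneg H hH
  rw [rp_ud s' U hU, rp_ud s U hU, rp_ud _ U hU]
  congr 1
  funext k
  rw [Real.rpow_mul (hx k)]

end gen

/-- the entries of a rotated diagonal matrix -/
theorem ud_rot (c s u v : ℝ) : ud (Rot c s) ![u, v] =
    !![((c ^ 2 * u + s ^ 2 * v : ℝ) : ℂ), ((c * s * (u - v) : ℝ) : ℂ);
      ((c * s * (u - v) : ℝ) : ℂ), ((s ^ 2 * u + c ^ 2 * v : ℝ) : ℂ)] := by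
  have h1 : dg ![u, v] = !![(u : ℂ), 0; 0, (v : ℂ)] := by
    ext i j
    fin_cases i <;> fin_cases j <;> simp [dg]
  have h2 : (Rot c s)ᴴ = !![(c : ℂ), (s : ℂ); -(s : ℂ), (c : ℂ)] := by
    ext i j
    fin_cases i <;> fin_cases j <;> simp [Rot]
  rw [ud, h1, h2, Rot, Matrix.mul_fin_two, Matrix.mul_fin_two]
  ext i j
  fin_cases i <;> fin_cases j <;> simp <;> ring

theorem ud_rot_re (c s u v : ℝ) : ((ud (Rot c s) ![u, v]) 0 0).re = c ^ 2 * u + s ^ 2 * v ∧
    ((ud (Rot c s) ![u, v]) 1 1).re = s ^ 2 * u + c ^ 2 * v ∧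
    ((ud (Rot c s) ![u, v]) 0 1).re = c * s * (u - v) := by
  rw [ud_rot]
  exact ⟨Complex.ofReal_re _, Complex.ofReal_re _, Complex.ofReal_re _⟩

theorem RSym_rot (c s u v : ℝ) : RSym (ud (Rot c s) ![u, v]) := by
  rw [ud_rot]
  refine ⟨by simp, fun i j => ?_⟩
  fin_cases i <;> fin_cases j <;> simp <;> norm_cast

/-- `FF` as a trace -/
theorem FF_trace (r : ℝ) (hr : 0 < r) (M : Matrix (Fin 2) (Fin 2) ℂ) (hR : RSym M)
    (hM : M.PosSemidef) :
    LibSch.FF r (M 0 0).re (M 1 1).re (M 0 1).re = (trace (rp r M)).re := by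
  obtain ⟨S, hS⟩ : ∃ S, S = rp (1 / 2) M := ⟨_, rfl⟩
  have hSR : RSym S := hS ▸ hR.rp _
  have hSS : S * Sᴴ = M := by
    rw [hSR.herm.eq, hS]
    exact rp_half_mul M hM
  have h1 := LibSch.pw_two (2 * r) (by linarith) (fun k : Fin 2 => (S 0 k).re)
    (fun k => (S 1 k).re)
  have h2 : (Matrix.of fun (i : Fin 2) (k : Fin 2) => ((![(S 0 k).re, (S 1 k).re] i : ℝ) : ℂ)) =
      S := by
    ext i k
    fin_cases i
    · exact hSR.2 0 k
    · exact hSR.2 1 k
  have h3 : LibSch.pw (2 * r) S = (trace (rp r M)).re := by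
    obtain ⟨U, hU, x, hx, hUx⟩ := ud_exists_nonneg M hM
    rw [← LibSch.pw_conjTranspose (2 * r) (by linarith) S, pw_ud (2 * r) Sᴴ U hU x (by
      rw [conjTranspose_conjTranspose, hSS, hUx]), hUx, rp_ud r U hU]
    unfold ud
    rw [Matrix.trace_mul_comm, ← Matrix.mul_assoc, a2_uu U hU, Matrix.one_mul, dg,
      Matrix.trace_diagonal, Complex.re_sum]
    refine Finset.sum_congr rfl fun k _ => ?_
    rw [Complex.ofReal_re]
    congr 1
    ring
  rw [h2, h3] at h1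
  rw [h1]
  have e2 : 2 * r / 2 = r := by ring
  rw [e2]
  have hc : ∀ i j, (S j i : ℂ) = (((S j i).re : ℝ) : ℂ) := fun i j => (hSR.2 j i).symm
  have e : ∀ i j, (M i j).re = ∑ k, (S i k).re * (S j k).re := by
    intro i j
    rw [← hSS, Matrix.mul_apply, Complex.re_sum]
    refine Finset.sum_congr rfl fun k _ => ?_
    rw [Matrix.conjTranspose_apply, ← hSR.2 i k, ← hSR.2 j k, Complex.star_def,
      Complex.conj_ofReal, ← Complex.ofReal_mul, Complex.ofReal_re, Complex.ofReal_re,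
      Complex.ofReal_re]
  rw [e 0 0, e 1 1, e 0 1]
  congr 1
  · exact Finset.sum_congr rfl fun k _ => (sq _).symm
  · exact Finset.sum_congr rfl fun k _ => (sq _).symm

theorem trace_outer_rot (c s u v y₁ y₂ : ℝ) :
    (trace (outer y₁ y₂ * ud (Rot c s) ![u, v])).re =
      (c * y₁ + s * y₂) ^ 2 * u + (c * y₂ - s * y₁) ^ 2 * v := by
  rw [ud_rot, outer, Matrix.mul_fin_two, Matrix.trace_fin_two_of]
  simp only [← Complex.ofReal_mul, ← Complex.ofReal_add, Complex.ofReal_re]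
  ring

theorem outer_apply00 (y₁ y₂ : ℝ) : outer y₁ y₂ 0 0 = ((y₁ ^ 2 : ℝ) : ℂ) := by
  simp [outer, sq]

theorem outer_apply11 (y₁ y₂ : ℝ) : outer y₁ y₂ 1 1 = ((y₂ ^ 2 : ℝ) : ℂ) := by
  simp [outer, sq]

theorem outer_apply01 (y₁ y₂ : ℝ) : outer y₁ y₂ 0 1 = ((y₁ * y₂ : ℝ) : ℂ) := by
  simp [outer]

theorem outer_apply10 (y₁ y₂ : ℝ) : outer y₁ y₂ 1 0 = ((y₁ * y₂ : ℝ) : ℂ) := by
  simp [outer]

end Pool.Agent.LibSchTw
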