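import Pool.Agent.LibSchTw.D3

/-! **C1.**  The cone argument: if three of the columns `c_j` are pairwise non-parallel and
`rp κ π = ∑ c_j c_jᵀ`, then `D_{et} (D_t π D_t)^κ D_{et}` is a combination of the `c_j c_jᵀ` with
nonnegative coefficients for small `t`.  (`κ = s - 1, e = 1`: `q`-side; `κ = s + 1, e = -1`:
`p`-side.) -/

open Matrix Filter Topology
open scoped ComplexOrder

namespace Pool.Agent.LibSchTw

open Pool.Agent.LibSchP

/-- `c cᵀ` -/
noncomputable def outer (a b : ℝ) : Matrix (Fin 2) (Fin 2) ℂ :=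
  !![((a * a : ℝ) : ℂ), ((a * b : ℝ) : ℂ); ((a * b : ℝ) : ℂ), ((b * b : ℝ) : ℂ)]

section transpose

variable {n : Type} [Fintype n] [DecidableEq n]

theorem ud_transpose (U : Matrix n n ℂ) (x : n → ℝ) : (ud U x)ᵀ = ud (Uᴴᵀ) x := by
  have h : (Uᴴᵀ)ᴴ = Uᵀ := by
    ext i j
    simp
  unfold ud
  rw [h, Matrix.transpose_mul, Matrix.transpose_mul, Matrix.mul_assoc]
  congr 2
  unfold dg
  rw [Matrix.diagonal_transpose]

theorem unitary_ctt (U : Matrix n n ℂ) (hU : U ∈ unitaryGroup n ℂ) : Uᴴᵀ ∈ unitaryGroup n ℂ := by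
  rw [mem_unitaryGroup_iff]
  have h : star (Uᴴᵀ) = Uᵀ := by
    ext i j
    simp
  rw [h, ← Matrix.transpose_mul, a2_uu' U hU, Matrix.transpose_one]

theorem rp_transpose (s : ℝ) (A : Matrix n n ℂ) (hA : A.IsHermitian) :
    rp s Aᵀ = (rp s A)ᵀ := by
  have h := ud_exists A hA
  have hU := (hA.eigenvectorUnitary).2
  conv_lhs => rw [h]
  conv_rhs => rw [h]
  rw [ud_transpose, rp_ud s _ (unitary_ctt _ hU), rp_ud s _ hU, ud_transpose]

end transpose

/-- a real symmetric `2 × 2` matrix -/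
def RSym (A : Matrix (Fin 2) (Fin 2) ℂ) : Prop :=
  A 0 1 = A 1 0 ∧ ∀ i j, ((A i j).re : ℂ) = A i j

theorem RSym.herm {A : Matrix (Fin 2) (Fin 2) ℂ} (h : RSym A) : A.IsHermitian := by
  ext i j
  rw [Matrix.conjTranspose_apply]
  have h1 : star (A j i) = A j i := by
    rw [← h.2 j i]
    exact Complex.conj_ofReal _
  rw [h1]
  fin_cases i <;> fin_cases j <;> simp [h.1]

theorem RSym.transpose {A : Matrix (Fin 2) (Fin 2) ℂ} (h : RSym A) : Aᵀ = A := by
  ext i j
  rw [Matrix.transpose_apply]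
  fin_cases i <;> fin_cases j <;> simp [h.1]

theorem RSym.of {A : Matrix (Fin 2) (Fin 2) ℂ} (h : A.IsHermitian) (h' : Aᵀ = A) : RSym A := by
  have h0 : A 0 1 = A 1 0 := by
    have := congrFun (congrFun h' 1) 0
    rwa [Matrix.transpose_apply] at this
  refine ⟨h0, fun i j => ?_⟩
  have h1 : star (A j i) = A i j := by
    have := congrFun (congrFun h i) j
    rwa [Matrix.conjTranspose_apply] at this
  have h2 : A j i = A i j := by
    have := congrFun (congrFun h' i) j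
    rwa [Matrix.transpose_apply] at this
  rw [h2] at h1
  exact Complex.conj_eq_iff_re.1 h1

theorem RSym.rp {A : Matrix (Fin 2) (Fin 2) ℂ} (h : RSym A) (s : ℝ) : RSym (rp s A) := by
  refine RSym.of (rp_isHermitian s A) ?_
  rw [← rp_transpose s A h.herm, h.transpose]

theorem RSym.tw {A : Matrix (Fin 2) (Fin 2) ℂ} (h : RSym A) (g : Fin 2 → ℝ) (t : ℝ) :
    RSym (tw g A t) := by
  refine ⟨?_, fun i j => ?_⟩
  · rw [LibSchTw.tw, Matrix.of_apply, Matrix.of_apply, h.1, add_comm (g 0)]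
  · rw [LibSchTw.tw, Matrix.of_apply, Complex.re_ofReal_mul, Complex.ofReal_mul, h.2 i j]

theorem RSym.outer (a b : ℝ) : RSym (outer a b) := by
  refine ⟨by simp [LibSchTw.outer], fun i j => ?_⟩
  fin_cases i <;> fin_cases j <;> simp [LibSchTw.outer]

/-- the three coefficients -/
theorem three_coef (a b : Fin 3 → ℝ) (h01 : a 0 * b 1 - b 0 * a 1 ≠ 0)
    (h02 : a 0 * b 2 - b 0 * a 2 ≠ 0) (h12 : a 1 * b 2 - b 1 * a 2 ≠ 0) :
    ∃ C : ℝ, ∀ A : Matrix (Fin 2) (Fin 2) ℂ, RSym A → ∃ δ : Fin 3 → ℝ,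
      (∀ i, |δ i| ≤ C * nf A) ∧ A = ∑ i, ((δ i : ℝ) : ℂ) • outer (a i) (b i) := by
  classical
  obtain ⟨d, hd⟩ : ∃ d : Fin 3 → ℝ, d = ![((a 0 * b 1 - b 0 * a 1) * (a 0 * b 2 - b 0 * a 2))⁻¹,
    ((a 1 * b 0 - b 1 * a 0) * (a 1 * b 2 - b 1 * a 2))⁻¹,
    ((a 2 * b 0 - b 2 * a 0) * (a 2 * b 1 - b 2 * a 1))⁻¹] := ⟨_, rfl⟩
  obtain ⟨e, he⟩ : ∃ e : Fin 3 → ℝ × ℝ × ℝ, e = ![(b 1 * b 2, a 1 * b 2 + a 2 * b 1, a 1 * a 2),
    (b 0 * b 2, a 0 * b 2 + a 2 * b 0, a 0 * a 2), (b 0 * b 1, a 0 * b 1 + a 1 * b 0, a 0 * a 1)] :=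
    ⟨_, rfl⟩
  refine ⟨∑ i, |d i| * (|(e i).1| + |(e i).2.1| + |(e i).2.2|), fun A hA => ?_⟩
  obtain ⟨X, hX⟩ : ∃ X : ℝ, X = (A 0 0).re := ⟨_, rfl⟩
  obtain ⟨W, hW⟩ : ∃ W : ℝ, W = (A 0 1).re := ⟨_, rfl⟩
  obtain ⟨Y, hY⟩ : ∃ Y : ℝ, Y = (A 1 1).re := ⟨_, rfl⟩
  have h00 : A 0 0 = (X : ℂ) := by rw [hX]; exact (hA.2 0 0).symm
  have h01' : A 0 1 = (W : ℂ) := by rw [hW]; exact (hA.2 0 1).symm
  have h10 : A 1 0 = (W : ℂ) := by rw [← hA.1]; exact h01'
  have h11 : A 1 1 = (Y : ℂ) := by rw [hY]; exact (hA.2 1 1).symm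
  have hn : ∀ i j, |(A i j).re| ≤ nf A := fun i j =>
    (Complex.abs_re_le_norm _).trans (norm_le_nf A i j)
  refine ⟨fun i => d i * (X * (e i).1 - W * (e i).2.1 + Y * (e i).2.2), fun i => ?_, ?_⟩
  · have h1 : |X * (e i).1 - W * (e i).2.1 + Y * (e i).2.2| ≤
        (|(e i).1| + |(e i).2.1| + |(e i).2.2|) * nf A := by
      have hx := hn 0 0
      have hw := hn 0 1
      have hy := hn 1 1
      rw [← hX] at hx
      rw [← hW] at hw
      rw [← hY] at hy
      calc |X * (e i).1 - W * (e i).2.1 + Y * (e i).2.2|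
          ≤ |X * (e i).1| + |W * (e i).2.1| + |Y * (e i).2.2| := by
            refine (abs_add_le _ _).trans ?_
            gcongr
            exact abs_sub _ _
        _ ≤ _ := by
            rw [abs_mul, abs_mul, abs_mul]
            nlinarith [mul_le_mul_of_nonneg_right hx (abs_nonneg (e i).1),
              mul_le_mul_of_nonneg_right hw (abs_nonneg (e i).2.1),
              mul_le_mul_of_nonneg_right hy (abs_nonneg (e i).2.2)]
    have h2 : |d i| * (|(e i).1| + |(e i).2.1| + |(e i).2.2|) ≤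
        ∑ i, |d i| * (|(e i).1| + |(e i).2.1| + |(e i).2.2|) :=
      Finset.single_le_sum (f := fun i => |d i| * (|(e i).1| + |(e i).2.1| + |(e i).2.2|))
        (fun i _ => by positivity) (Finset.mem_univ i)
    rw [abs_mul]
    calc |d i| * |X * (e i).1 - W * (e i).2.1 + Y * (e i).2.2|
        ≤ |d i| * ((|(e i).1| + |(e i).2.1| + |(e i).2.2|) * nf A) :=
          mul_le_mul_of_nonneg_left h1 (abs_nonneg _)
      _ = |d i| * (|(e i).1| + |(e i).2.1| + |(e i).2.2|) * nf A := by ring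
      _ ≤ _ := mul_le_mul_of_nonneg_right h2 (nf_nonneg _)
  · have h10' : a 1 * b 0 - b 1 * a 0 ≠ 0 := fun h => h01 (by linarith)
    have h20' : a 2 * b 0 - b 2 * a 0 ≠ 0 := fun h => h02 (by linarith)
    have h21' : a 2 * b 1 - b 2 * a 1 ≠ 0 := fun h => h12 (by linarith)
    have key : ∀ i j, (A i j).re = ∑ k, (d k * (X * (e k).1 - W * (e k).2.1 + Y * (e k).2.2)) *
        (outer (a k) (b k) i j).re := by
      intro i j
      have r1 : a 1 * b 0 - b 1 * a 0 = -(a 0 * b 1 - b 0 * a 1) := by ring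
      have r2 : a 2 * b 0 - b 2 * a 0 = -(a 0 * b 2 - b 0 * a 2) := by ring
      have r3 : a 2 * b 1 - b 2 * a 1 = -(a 1 * b 2 - b 1 * a 2) := by ring
      rw [Fin.sum_univ_three, hd, he]
      simp only [r1, r2, r3]
      fin_cases i <;> fin_cases j
      · show (A 0 0).re = _
        rw [h00]
        simp only [LibSchTw.outer, Matrix.cons_val_zero, Matrix.cons_val_one, Matrix.cons_val,
          Matrix.of_apply, Complex.ofReal_re, Fin.zero_eta, Fin.isValue]
        field_simp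
        ring
      · show (A 0 1).re = _
        rw [h01']
        simp only [LibSchTw.outer, Matrix.cons_val_zero, Matrix.cons_val_one, Matrix.cons_val,
          Matrix.of_apply, Complex.ofReal_re, Fin.zero_eta, Fin.isValue, Fin.mk_one]
        field_simp
        ring
      · show (A 1 0).re = _
        rw [h10]
        simp only [LibSchTw.outer, Matrix.cons_val_zero, Matrix.cons_val_one, Matrix.cons_val,
          Matrix.of_apply, Complex.ofReal_re, Fin.zero_eta, Fin.isValue, Fin.mk_one]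
        field_simp
        ring
      · show (A 1 1).re = _
        rw [h11]
        simp only [LibSchTw.outer, Matrix.cons_val_zero, Matrix.cons_val_one, Matrix.cons_val,
          Matrix.of_apply, Complex.ofReal_re, Fin.isValue, Fin.mk_one]
        field_simp
        ring
    ext i j
    have h3 : ∀ k, outer (a k) (b k) i j = (((outer (a k) (b k) i j).re : ℝ) : ℂ) := fun k =>
      ((RSym.outer (a k) (b k)).2 i j).symm
    rw [← hA.2 i j, key i j, Matrix.sum_apply]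
    push_cast
    refine Finset.sum_congr rfl fun k _ => ?_
    rw [Matrix.smul_apply, h3 k, Complex.ofReal_re]
    push_cast
    rfl

end Pool.Agent.LibSchTw
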