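import Pool.Agent.LibSchTw.C1

/-! **C2.**  The cone argument, conclusion. -/

open Matrix Filter Topology Asymptotics
open scoped ComplexOrder

namespace Pool.Agent.LibSchTw

open Pool.Agent.LibSchP

section gen

variable {n : Type} [Fintype n] [DecidableEq n]

theorem tw_tendsto (g : n → ℝ) (P : Matrix n n ℂ) :
    Tendsto (fun t => nf (tw g P t - P)) (𝓝 0) (𝓝 0) := by
  have hfr := tw_fr_isBigO g P 0
  rw [tw_zero] at hfr
  have h1 : Tendsto (fun τ => fr (tw g P τ - P)) (𝓝 0) (𝓝 0) := by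
    refine hfr.trans_tendsto ?_
    have : Tendsto (fun τ : ℝ => (τ - 0) ^ 2) (𝓝 0) (𝓝 ((0 - 0) ^ 2)) :=
      Continuous.tendsto (by fun_prop) 0
    simpa using this
  have h2 := (Real.continuous_sqrt.tendsto 0).comp h1
  simpa [nf, Function.comp_def] using h2

/-- `t ↦ rp κ (D_t P D_t)` is continuous at `0`, `κ ≥ 1` -/
theorem rp_tw_tendsto (κ : ℝ) (hκ : 1 ≤ κ) (g : n → ℝ) (P : Matrix n n ℂ) (hP : P.PosSemidef) :
    Tendsto (fun t => nf (rp κ (tw g P t) - rp κ P)) (𝓝 0) (𝓝 0) := by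
  obtain ⟨L, hL, hlip⟩ := rp_lip (n := n) κ (nf P + 1) hκ (by linarith [nf_nonneg P])
  have h1 := tw_tendsto g P
  have hev : ∀ᶠ t in 𝓝 (0 : ℝ), nf (tw g P t - P) ≤ 1 := by
    filter_upwards [h1.eventually (gt_mem_nhds one_pos)] with t ht
    exact ht.le
  refine squeeze_zero' (g := fun t => L * nf (tw g P t - P)) (Eventually.of_forall fun t => nf_nonneg _)
    ?_ ?_
  · filter_upwards [hev] with t ht
    refine hlip _ _ (tw_psd g P hP t) hP ?_ (by linarith)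
    calc nf (tw g P t) = nf (P + (tw g P t - P)) := by congr 1; abel
      _ ≤ nf P + nf (tw g P t - P) := nf_add_le _ _
      _ ≤ nf P + 1 := by linarith
  · simpa using h1.const_mul L

theorem nf_tendsto_zero {m : Type} [Fintype m] (F : ℝ → Matrix m m ℂ)
    (h : ∀ i j, Tendsto (fun t => F t i j) (𝓝 0) (𝓝 0)) :
    Tendsto (fun t => nf (F t)) (𝓝 0) (𝓝 0) := by
  have h1 : Tendsto (fun t => fr (F t)) (𝓝 0) (𝓝 0) := by
    unfold fr
    have : Tendsto (fun t => ∑ i, ∑ j, ‖F t i j‖ ^ 2) (𝓝 0) (𝓝 (∑ i : m, ∑ j : m, (0 : ℝ))) := by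
      refine tendsto_finset_sum _ fun i _ => tendsto_finset_sum _ fun j _ => ?_
      have h2 := ((h i j).norm).pow 2
      simpa using h2
    simpa using this
  have h2 := (Real.continuous_sqrt.tendsto 0).comp h1
  simpa [nf, Function.comp_def] using h2

/-- `t ↦ D_{et} rp κ (D_t P D_t) D_{et}` is continuous at `0` -/
theorem tw_rp_tw_tendsto (κ e : ℝ) (hκ : 1 ≤ κ) (g : n → ℝ) (P : Matrix n n ℂ)
    (hP : P.PosSemidef) :
    Tendsto (fun t => nf (tw g (rp κ (tw g P t)) (e * t) - rp κ P)) (𝓝 0) (𝓝 0) := by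
  refine nf_tendsto_zero _ fun i j => ?_
  have h1 : Tendsto (fun t => (rp κ (tw g P t) - rp κ P) i j) (𝓝 0) (𝓝 0) :=
    squeeze_zero_norm (fun t => norm_le_nf _ i j) (rp_tw_tendsto κ hκ g P hP)
  have h2 : Tendsto (fun t => (rp κ (tw g P t)) i j) (𝓝 0) (𝓝 (rp κ P i j)) := by
    have := h1.add_const (rp κ P i j)
    simpa [Matrix.sub_apply] using this
  have h3 : Tendsto (fun t : ℝ => ((Real.exp (e * t * ((g i + g j) / 2)) : ℝ) : ℂ)) (𝓝 0)
      (𝓝 ((Real.exp (e * 0 * ((g i + g j) / 2)) : ℝ) : ℂ)) := by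
    refine Continuous.tendsto ?_ 0
    fun_prop
  have h4 := (h3.mul h2).sub_const (rp κ P i j)
  simpa [Matrix.sub_apply, tw] using h4

end gen

theorem RSym.sub {A B : Matrix (Fin 2) (Fin 2) ℂ} (hA : RSym A) (hB : RSym B) : RSym (A - B) := by
  refine ⟨by rw [Matrix.sub_apply, Matrix.sub_apply, hA.1, hB.1], fun i j => ?_⟩
  rw [Matrix.sub_apply, Complex.sub_re, Complex.ofReal_sub, hA.2, hB.2]

/-- **cone argument** -/
theorem cone_near {N : ℕ} (a b : Fin N → ℝ) (i₀ i₁ i₂ : Fin N) (h01 : a i₀ * b i₁ - b i₀ * a i₁ ≠ 0)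
    (h02 : a i₀ * b i₂ - b i₀ * a i₂ ≠ 0) (h12 : a i₁ * b i₂ - b i₁ * a i₂ ≠ 0) (κ e : ℝ)
    (hκ : 1 ≤ κ) (g : Fin 2 → ℝ) (π : Matrix (Fin 2) (Fin 2) ℂ) (hπ : π.PosSemidef) (hR : RSym π)
    (hm : rp κ π = ∑ j, outer (a j) (b j)) :
    ∀ᶠ t in 𝓝 (0 : ℝ), ∃ al : Fin N → ℝ, (∀ j, 0 ≤ al j) ∧
      tw g (rp κ (tw g π t)) (e * t) = ∑ j, ((al j : ℝ) : ℂ) • outer (a j) (b j) := by
  obtain ⟨C, hC⟩ := three_coef ![a i₀, a i₁, a i₂] ![b i₀, b i₁, b i₂] h01 h02 h12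
  have hto := tw_rp_tw_tendsto κ e hκ g π hπ
  have hev : ∀ᶠ t in 𝓝 (0 : ℝ), C * nf (tw g (rp κ (tw g π t)) (e * t) - rp κ π) ≤ 1 / 3 := by
    have h1 := hto.const_mul C
    rw [mul_zero] at h1
    filter_upwards [h1.eventually (gt_mem_nhds (by norm_num : (0 : ℝ) < 1 / 3))] with t ht
    exact ht.le
  filter_upwards [hev] with t ht
  obtain ⟨δ, hδ, hA⟩ := hC (tw g (rp κ (tw g π t)) (e * t) - rp κ π)
    (((((hR.tw g t).rp κ).tw g (e * t))).sub (hR.rp κ))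
  refine ⟨fun j => 1 + ((if j = i₀ then δ 0 else 0) + (if j = i₁ then δ 1 else 0) +
    (if j = i₂ then δ 2 else 0)), fun j => ?_, ?_⟩
  · have h3 : ∀ i, |δ i| ≤ 1 / 3 := fun i => (hδ i).trans ht
    have h4 : ∀ (p : Prop) [Decidable p] (i : Fin 3), -(1 / 3) ≤ if p then δ i else 0 := by
      intro p _ i
      split_ifs
      · exact (abs_le.1 (h3 i)).1
      · norm_num
    have := h4 (j = i₀) 0
    have := h4 (j = i₁) 1
    have := h4 (j = i₂) 2
    linarith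
  · have h5 : tw g (rp κ (tw g π t)) (e * t) = rp κ π +
        (tw g (rp κ (tw g π t)) (e * t) - rp κ π) := by abel
    rw [h5, hA, hm, Fin.sum_univ_three]
    simp only [Matrix.cons_val_zero, Matrix.cons_val_one, Matrix.cons_val]
    have h6 : ∀ (i : Fin N) (z : ℝ), ∑ j, (((if j = i then z else 0 : ℝ)) : ℂ) • outer (a j) (b j) =
        ((z : ℝ) : ℂ) • outer (a i) (b i) := by
      intro i z
      rw [Finset.sum_eq_single i]
      · rw [if_pos rfl]
      · intro j _ hj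
        rw [if_neg hj, Complex.ofReal_zero, zero_smul]
      · intro h
        exact absurd (Finset.mem_univ i) h
    rw [← h6 i₀ (δ 0), ← h6 i₁ (δ 1), ← h6 i₂ (δ 2), ← Finset.sum_add_distrib,
      ← Finset.sum_add_distrib, ← Finset.sum_add_distrib]
    refine Finset.sum_congr rfl fun j _ => ?_
    push_cast
    module

end Pool.Agent.LibSchTw
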