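import Pool.Agent.LibSchP.A4b

/-! **D1.**  The divided difference of `x ^ s`, `s ≥ 2`, is Lipschitz in each variable on bounded
sets, and the Daleckii-Krein formula for `rp s` at a positive semidefinite matrix, with a quadratic
error. -/

open Matrix MeasureTheory
open scoped ComplexOrder

namespace Pool.Agent.LibSchTw

open Pool.Agent.LibSchP

theorem dd_integral (s a b : ℝ) (hs : 2 ≤ s) (ha : 0 ≤ a) (hb : 0 ≤ b) :
    dd s a b = ∫ τ in (0 : ℝ)..1, s * (a + τ * (b - a)) ^ (s - 1) := by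
  unfold dd
  split_ifs with h
  · subst h
    simp
  · have hba : b - a ≠ 0 := sub_ne_zero.2 (Ne.symm h)
    have h1 : ∀ τ ∈ Set.uIcc (0 : ℝ) 1, HasDerivAt (fun τ => (a + τ * (b - a)) ^ s / (b - a))
        (s * (a + τ * (b - a)) ^ (s - 1)) τ := by
      intro τ _
      have h2 : HasDerivAt (fun τ : ℝ => a + τ * (b - a)) (b - a) τ := by
        simpa using ((hasDerivAt_id τ).mul_const (b - a)).const_add a
      have h3 := (h2.rpow_const (p := s) (Or.inr (by linarith))).div_const (b - a)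
      refine h3.congr_deriv ?_
      field_simp
    rw [intervalIntegral.integral_eq_sub_of_hasDerivAt h1]
    · simp only [one_mul, zero_mul, add_zero]
      rw [← sub_div, show a + (b - a) = b by ring, ← neg_sub (b ^ s) (a ^ s), ← neg_sub b a,
        neg_div_neg_eq]
    · refine (Continuous.intervalIntegrable ?_ 0 1)
      exact continuous_const.mul (Continuous.rpow_const (by fun_prop)
        fun _ => Or.inr (by linarith))

theorem dd_lip (s R a b c : ℝ) (hs : 2 ≤ s) (ha : 0 ≤ a) (hb : 0 ≤ b) (hc : 0 ≤ c) (haR : a ≤ R)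
    (hbR : b ≤ R) (hcR : c ≤ R) :
    |dd s a b - dd s a c| ≤ s * ((s - 1) * R ^ (s - 2)) * |b - c| := by
  have hcont : ∀ x : ℝ, Continuous fun τ : ℝ => s * (a + τ * (x - a)) ^ (s - 1) := fun x =>
    continuous_const.mul (Continuous.rpow_const (by fun_prop) fun _ => Or.inr (by linarith))
  rw [dd_integral s a b hs ha hb, dd_integral s a c hs ha hc,
    ← intervalIntegral.integral_sub ((hcont b).intervalIntegrable _ _)
      ((hcont c).intervalIntegrable _ _), ← Real.norm_eq_abs]
  have h := intervalIntegral.norm_integral_le_of_norm_le_const (a := (0 : ℝ)) (b := 1)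
    (f := fun τ => s * (a + τ * (b - a)) ^ (s - 1) - s * (a + τ * (c - a)) ^ (s - 1))
    (C := s * ((s - 1) * R ^ (s - 2)) * |b - c|) (fun τ hτ => by
      rw [Set.uIoc_of_le zero_le_one] at hτ
      have h0 := hτ.1.le
      have h1 := hτ.2
      have e : ∀ x, a + τ * (x - a) = (1 - τ) * a + τ * x := fun x => by ring
      have hx0 : ∀ x, 0 ≤ x → 0 ≤ a + τ * (x - a) := fun x hx => by
        rw [e]; nlinarith [mul_nonneg (sub_nonneg.2 h1) ha, mul_nonneg h0 hx]
      have hxR : ∀ x, x ≤ R → a + τ * (x - a) ≤ R := fun x hx => by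
        rw [e]; nlinarith [mul_nonneg (sub_nonneg.2 h1) (sub_nonneg.2 haR),
          mul_nonneg h0 (sub_nonneg.2 hx)]
      have h2 := a4b_rpow_lip (s - 1) R (by linarith) _ _ (hx0 b hb) (hxR b hbR) (hx0 c hc)
        (hxR c hcR)
      rw [← mul_sub, norm_mul, Real.norm_eq_abs, Real.norm_eq_abs, abs_of_nonneg (by linarith :
        (0 : ℝ) ≤ s), mul_assoc]
      refine mul_le_mul_of_nonneg_left (h2.trans ?_) (by linarith)
      have h3 : a + τ * (b - a) - (a + τ * (c - a)) = τ * (b - c) := by ring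
      rw [h3, abs_mul, abs_of_nonneg h0, show s - 1 - 1 = s - 2 by ring]
      have h4 : 0 ≤ (s - 1) * R ^ (s - 2) :=
        mul_nonneg (by linarith) (Real.rpow_nonneg (ha.trans haR) _)
      refine mul_le_mul_of_nonneg_left ?_ h4
      exact mul_le_of_le_one_left (abs_nonneg _) h1)
  simpa using h

variable {n : Type} [Fintype n] [DecidableEq n]

/-- Daleckii-Krein with a quadratic error, at a diagonal matrix. -/
theorem dk_diag (s R : ℝ) (hs : 2 ≤ s) (x : n → ℝ) (hx : ∀ k, 0 ≤ x k)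
    (hxR : ∀ k, x k ≤ R) (B : Matrix n n ℂ) (hB : B.PosSemidef) (hBR : nf B ≤ R) (i k : n) :
    ‖(rp s B - rp s (dg x)) i k - (dd s (x i) (x k) : ℂ) * (B - dg x) i k‖ ≤
      s * ((s - 1) * R ^ (s - 2)) * nf (B - dg x) ^ 2 := by
  obtain ⟨V, hV, y, hy, rfl⟩ := ud_exists_nonneg B hB
  have hyR : ∀ k, y k ≤ R := fun k => ((le_abs_self _).trans (ud_le_nf V hV y k)).trans hBR
  set L : ℝ := s * ((s - 1) * R ^ (s - 2)) with hL
  have hVV : V * Vᴴ = 1 := a2_uu' V hV
  -- entries of `(f(B) - f(dg x)) V`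
  have key : ∀ (f : ℝ → ℝ) (i j : n), (((ud V fun k => f (y k)) - dg fun k => f (x k)) * V) i j =
      ((f (y j) - f (x i) : ℝ) : ℂ) * V i j := by
    intro f i j
    have h1 : (ud V fun k => f (y k)) * V = V * dg fun k => f (y k) := by
      unfold ud
      rw [Matrix.mul_assoc, a2_uu V hV, Matrix.mul_one]
    rw [Matrix.sub_mul, h1, Matrix.sub_apply, dg, dg, Matrix.mul_diagonal, Matrix.diagonal_mul]
    push_cast
    ring
  have key1 := key (fun t => t)
  have keys := key (fun t => t ^ s)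
  rw [rp_ud s V hV y, rp_dg]
  set H : Matrix n n ℂ := ud V y - dg x with hH
  set F : Matrix n n ℂ := (ud V fun k => y k ^ s) - dg fun k => x k ^ s with hF
  have hdd : ∀ i j, ((y j ^ s - x i ^ s : ℝ) : ℂ) = (dd s (x i) (y j) : ℂ) * ((y j - x i : ℝ) : ℂ) := by
    intro i j
    rw [← Complex.ofReal_mul]
    congr 1
    unfold dd
    split_ifs with h
    · rw [h]; ring
    · have : x i - y j ≠ 0 := sub_ne_zero.2 h
      field_simp
      ring
  have hFV : ∀ i j, (F * V) i j = (dd s (x i) (y j) : ℂ) * (H * V) i j := by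
    intro i j
    rw [keys i j, key1 i j, hdd i j]
    ring
  have hFe : F i k = ∑ j, (dd s (x i) (y j) : ℂ) * (H * V) i j * Vᴴ j k := by
    have : F = (F * V) * Vᴴ := by rw [Matrix.mul_assoc, hVV, Matrix.mul_one]
    conv_lhs => rw [this]
    rw [Matrix.mul_apply]
    exact Finset.sum_congr rfl fun j _ => by rw [hFV i j]
  have hHe : H i k = ∑ j, (H * V) i j * Vᴴ j k := by
    have : H = (H * V) * Vᴴ := by rw [Matrix.mul_assoc, hVV, Matrix.mul_one]
    conv_lhs => rw [this]
    rw [Matrix.mul_apply]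
  have hnorm : ∀ j, ‖((dd s (x i) (y j) - dd s (x i) (x k) : ℝ) : ℂ)‖ * ‖Vᴴ j k‖ ≤
      L * ‖(H * V) k j‖ := by
    intro j
    have h1 := dd_lip s R (x i) (y j) (x k) hs (hx i) (hy j) (hx k) (hxR i) (hyR j) (hxR k)
    have h2 : ‖(H * V) k j‖ = |y j - x k| * ‖V k j‖ := by
      rw [key1 k j, norm_mul, Complex.norm_real, Real.norm_eq_abs]
    rw [h2, Complex.norm_real, Real.norm_eq_abs, Matrix.conjTranspose_apply, norm_star, ← mul_assoc]
    exact mul_le_mul_of_nonneg_right h1 (norm_nonneg _)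
  have hLnn : 0 ≤ L := by
    have hR : 0 ≤ R := (hx i).trans (hxR i)
    exact mul_nonneg (by linarith) (mul_nonneg (by linarith) (Real.rpow_nonneg hR _))
  calc ‖F i k - (dd s (x i) (x k) : ℂ) * H i k‖
      = ‖∑ j, ((dd s (x i) (y j) - dd s (x i) (x k) : ℝ) : ℂ) * Vᴴ j k * (H * V) i j‖ := by
        rw [hFe, hHe, Finset.mul_sum, ← Finset.sum_sub_distrib]
        congr 1
        refine Finset.sum_congr rfl fun j _ => ?_
        push_cast
        ring
    _ ≤ ∑ j, L * ‖(H * V) k j‖ * ‖(H * V) i j‖ := by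
        refine (norm_sum_le _ _).trans (Finset.sum_le_sum fun j _ => ?_)
        rw [norm_mul, norm_mul]
        exact mul_le_mul_of_nonneg_right (hnorm j) (norm_nonneg _)
    _ ≤ L * nf H ^ 2 := by
        have h3 : ∑ j, ‖(H * V) k j‖ * ‖(H * V) i j‖ ≤ nf H ^ 2 := by
          have h4 : nf H ^ 2 = fr (H * V) := by
            rw [← nf_sq, nf_mul_unitary V hV]
          have h5 : ∀ l : n, ∑ j, ‖(H * V) l j‖ ^ 2 ≤ fr (H * V) := fun l => by
            unfold fr
            exact Finset.single_le_sum (f := fun l => ∑ j, ‖(H * V) l j‖ ^ 2)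
              (fun l _ => Finset.sum_nonneg fun j _ => sq_nonneg _) (Finset.mem_univ l)
          calc ∑ j, ‖(H * V) k j‖ * ‖(H * V) i j‖
              ≤ ∑ j, (‖(H * V) k j‖ ^ 2 + ‖(H * V) i j‖ ^ 2) / 2 :=
                Finset.sum_le_sum fun j _ => by
                  nlinarith [sq_nonneg (‖(H * V) k j‖ - ‖(H * V) i j‖)]
            _ = (∑ j, ‖(H * V) k j‖ ^ 2 + ∑ j, ‖(H * V) i j‖ ^ 2) / 2 := by
                rw [← Finset.sum_add_distrib, Finset.sum_div]
            _ ≤ nf H ^ 2 := by rw [h4]; linarith [h5 k, h5 i]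
        calc ∑ j, L * ‖(H * V) k j‖ * ‖(H * V) i j‖
            = L * ∑ j, ‖(H * V) k j‖ * ‖(H * V) i j‖ := by
              rw [Finset.mul_sum]
              exact Finset.sum_congr rfl fun j _ => by ring
          _ ≤ L * nf H ^ 2 := mul_le_mul_of_nonneg_left h3 hLnn

end Pool.Agent.LibSchTw
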