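import Pool.Agent.LibSchTw.D1

/-! **D2.**  The derivative of `t ↦ tr (K (D_t P D_t)^s)`, `D_t = exp(t g / 2)`. -/

open Matrix MeasureTheory Filter Asymptotics Topology
open scoped ComplexOrder

namespace Pool.Agent.LibSchTw

open Pool.Agent.LibSchP

variable {n : Type} [Fintype n] [DecidableEq n]

/-- the Daleckii-Krein functional -/
noncomputable def dkf (s : ℝ) (U : Matrix n n ℂ) (x : n → ℝ) (K H : Matrix n n ℂ) : ℂ :=
  ∑ j, ∑ k, (Uᴴ * K * U) k j * ((dd s (x j) (x k) : ℂ) * (Uᴴ * H * U) j k)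

/-- `D_t P D_t` with `D_t = exp(t g / 2)` -/
noncomputable def tw (g : n → ℝ) (P : Matrix n n ℂ) (t : ℝ) : Matrix n n ℂ :=
  Matrix.of fun j k => ((Real.exp (t * ((g j + g k) / 2)) : ℝ) : ℂ) * P j k

theorem tw_eq (g : n → ℝ) (P : Matrix n n ℂ) (t : ℝ) :
    tw g P t = dg (fun k => Real.exp (t * g k / 2)) * P * dg (fun k => Real.exp (t * g k / 2)) := by
  ext j k
  rw [tw, Matrix.of_apply, dg, Matrix.mul_diagonal, Matrix.diagonal_mul]
  have : t * ((g j + g k) / 2) = t * g j / 2 + t * g k / 2 := by ring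
  rw [this, Real.exp_add]
  push_cast
  ring

theorem tw_zero (g : n → ℝ) (P : Matrix n n ℂ) : tw g P 0 = P := by
  ext j k
  simp [tw]

theorem tw_psd (g : n → ℝ) (P : Matrix n n ℂ) (hP : P.PosSemidef) (t : ℝ) :
    (tw g P t).PosSemidef := by
  rw [tw_eq]
  have h := hP.mul_mul_conjTranspose_same (dg fun k => Real.exp (t * g k / 2))
  rwa [dg_conjTranspose] at h

theorem dk_conj (s R : ℝ) (hs : 2 ≤ s) (U : Matrix n n ℂ) (hU : U ∈ unitaryGroup n ℂ) (x : n → ℝ)
    (hx : ∀ k, 0 ≤ x k) (hxR : ∀ k, x k ≤ R) (B : Matrix n n ℂ) (hB : B.PosSemidef)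
    (hBR : nf B ≤ R) (j k : n) :
    ‖(Uᴴ * (rp s B - rp s (ud U x)) * U) j k - (dd s (x j) (x k) : ℂ) *
      (Uᴴ * (B - ud U x) * U) j k‖ ≤ s * ((s - 1) * R ^ (s - 2)) * nf (B - ud U x) ^ 2 := by
  have hU' := a4a_conj_mem U hU
  have e1 : Uᴴ * ud U x * U = dg x := a2_back U hU x
  have hB' : (Uᴴ * B * U).PosSemidef := hB.conjTranspose_mul_mul_same U
  have e2 : Uᴴ * (B - ud U x) * U = Uᴴ * B * U - dg x := by
    rw [Matrix.mul_sub, Matrix.sub_mul, e1]
  have e3 : Uᴴ * (rp s B - rp s (ud U x)) * U = rp s (Uᴴ * B * U) - rp s (dg x) := by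
    obtain ⟨V, hV, y, hy, rfl⟩ := ud_exists_nonneg B hB
    have h1 : Uᴴ * ud V y * U = ud (Uᴴ * V) y := by
      unfold ud
      rw [Matrix.conjTranspose_mul, Matrix.conjTranspose_conjTranspose]
      simp only [Matrix.mul_assoc]
    have h2 : Uᴴ * ud V (fun k => y k ^ s) * U = ud (Uᴴ * V) fun k => y k ^ s := by
      unfold ud
      rw [Matrix.conjTranspose_mul, Matrix.conjTranspose_conjTranspose]
      simp only [Matrix.mul_assoc]
    rw [h1, rp_ud s _ (mul_mem hU' hV), rp_ud s V hV, rp_ud s U hU, rp_dg, Matrix.mul_sub,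
      Matrix.sub_mul, h2, a2_back U hU]
  have e4 : nf (Uᴴ * B * U - dg x) = nf (B - ud U x) := by
    rw [← e2, nf_mul_unitary U hU, nf_unitary_mul Uᴴ hU']
  have e5 : nf (Uᴴ * B * U) ≤ R := by
    rwa [nf_mul_unitary U hU, nf_unitary_mul Uᴴ hU']
  have h := dk_diag s R hs x hx hxR (Uᴴ * B * U) hB' e5 j k
  rw [e3, e2, ← e4]
  exact h

theorem trace_conj (U : Matrix n n ℂ) (hU : U ∈ unitaryGroup n ℂ) (K X : Matrix n n ℂ) :
    trace (K * X) = ∑ j, ∑ k, (Uᴴ * K * U) k j * (Uᴴ * X * U) j k := by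
  have h1 : trace (K * X) = trace ((Uᴴ * K * U) * (Uᴴ * X * U)) := by
    have : (Uᴴ * K * U) * (Uᴴ * X * U) = Uᴴ * (K * X * U) := by
      calc (Uᴴ * K * U) * (Uᴴ * X * U) = Uᴴ * K * (U * Uᴴ) * X * U := by
            simp only [Matrix.mul_assoc]
        _ = Uᴴ * (K * X * U) := by rw [a2_uu' U hU, Matrix.mul_one]; simp only [Matrix.mul_assoc]
    rw [this, Matrix.trace_mul_comm Uᴴ (K * X * U), Matrix.mul_assoc (K * X), a2_uu' U hU,
      Matrix.mul_one]
  rw [h1, Matrix.trace]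
  simp only [Matrix.diag_apply, Matrix.mul_apply (M := Uᴴ * K * U)]
  rw [Finset.sum_comm]

/-- the trace form of the Daleckii-Krein estimate -/
theorem dk_trace (s R : ℝ) (hs : 2 ≤ s) (U : Matrix n n ℂ) (hU : U ∈ unitaryGroup n ℂ) (x : n → ℝ)
    (hx : ∀ k, 0 ≤ x k) (hxR : ∀ k, x k ≤ R) (K : Matrix n n ℂ) :
    ∃ C : ℝ, ∀ B : Matrix n n ℂ, B.PosSemidef → nf B ≤ R →
      ‖trace (K * rp s B) - trace (K * rp s (ud U x)) - dkf s U x K (B - ud U x)‖ ≤
        C * nf (B - ud U x) ^ 2 := by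
  refine ⟨∑ j, ∑ k, ‖(Uᴴ * K * U) k j‖ * (s * ((s - 1) * R ^ (s - 2))), fun B hB hBR => ?_⟩
  rw [← Matrix.trace_sub, ← Matrix.mul_sub, trace_conj U hU, dkf, ← Finset.sum_sub_distrib,
    Finset.sum_mul]
  refine (norm_sum_le _ _).trans (Finset.sum_le_sum fun j _ => ?_)
  rw [← Finset.sum_sub_distrib, Finset.sum_mul]
  refine (norm_sum_le _ _).trans (Finset.sum_le_sum fun k _ => ?_)
  rw [← mul_sub, norm_mul]
  have h := dk_conj s R hs U hU x hx hxR B hB hBR j k
  exact (mul_le_mul_of_nonneg_left h (norm_nonneg ((Uᴴ * K * U) k j))).trans (le_of_eq (by ring))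

theorem tw_hasDerivAt (g : n → ℝ) (P : Matrix n n ℂ) (t : ℝ) (j k : n) :
    HasDerivAt (fun τ => tw g P τ j k) ((((g j + g k) / 2 : ℝ) : ℂ) * tw g P t j k) t := by
  have h1 : HasDerivAt (fun τ : ℝ => Real.exp (τ * ((g j + g k) / 2)))
      (Real.exp (t * ((g j + g k) / 2)) * ((g j + g k) / 2)) t := by
    simpa using ((hasDerivAt_id t).mul_const ((g j + g k) / 2)).exp
  have h2 := (h1.ofReal_comp).mul_const (P j k)
  refine h2.congr_deriv ?_
  rw [tw, Matrix.of_apply]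
  push_cast
  ring

theorem tw_der (g : n → ℝ) (P : Matrix n n ℂ) (t : ℝ) (j k : n) :
    (((g j + g k) / 2 : ℝ) : ℂ) * tw g P t j k =
      ((2⁻¹ : ℂ) • (dg g * tw g P t + tw g P t * dg g)) j k := by
  rw [Matrix.smul_apply, Matrix.add_apply, dg, Matrix.mul_diagonal, Matrix.diagonal_mul]
  push_cast
  simp only [smul_eq_mul]
  ring

theorem tw_fr_isBigO (g : n → ℝ) (P : Matrix n n ℂ) (t : ℝ) :
    (fun τ => fr (tw g P τ - tw g P t)) =O[𝓝 t] fun τ => (τ - t) ^ 2 := by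
  unfold fr
  refine IsBigO.fun_sum fun j _ => IsBigO.fun_sum fun k _ => ?_
  have h : (fun τ => tw g P τ j k - tw g P t j k) =O[𝓝 t] fun τ => τ - t :=
    (tw_hasDerivAt g P t j k).isBigO_sub
  have h2 : (fun τ => ‖tw g P τ j k - tw g P t j k‖ ^ 2) =O[𝓝 t] fun τ => (τ - t) ^ 2 :=
    h.norm_left.pow 2
  simpa [Matrix.sub_apply] using h2

/-- the derivative of `t ↦ tr (K (D_t P D_t)^s)` -/
theorem hasDerivAt_trace (s : ℝ) (hs : 2 ≤ s) (g : n → ℝ) (P : Matrix n n ℂ) (hP : P.PosSemidef)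
    (K U : Matrix n n ℂ) (hU : U ∈ unitaryGroup n ℂ) (x : n → ℝ) (hx : ∀ k, 0 ≤ x k) (t : ℝ)
    (hA : tw g P t = ud U x) :
    HasDerivAt (fun τ => trace (K * rp s (tw g P τ)))
      (dkf s U x K ((2⁻¹ : ℂ) • (dg g * ud U x + ud U x * dg g))) t := by
  set R : ℝ := nf (ud U x) + 1 with hR
  have hxR : ∀ k, x k ≤ R := fun k =>
    ((le_abs_self _).trans (ud_le_nf U hU x k)).trans (by rw [hR]; linarith)
  obtain ⟨C, hC⟩ := dk_trace s R hs U hU x hx hxR K
  have hfr := tw_fr_isBigO g P t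
  -- the linear part
  have hlin : HasDerivAt (fun τ => dkf s U x K (tw g P τ - ud U x))
      (dkf s U x K ((2⁻¹ : ℂ) • (dg g * ud U x + ud U x * dg g))) t := by
    have hent : ∀ j k, HasDerivAt (fun τ => (Uᴴ * (tw g P τ - ud U x) * U) j k)
        ((Uᴴ * ((2⁻¹ : ℂ) • (dg g * ud U x + ud U x * dg g)) * U) j k) t := by
      intro j k
      have e : ∀ Z : Matrix n n ℂ, (Uᴴ * Z * U) j k = ∑ b, (∑ a, Uᴴ j a * Z a b) * U b k := by
        intro Z
        rw [Matrix.mul_apply]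
        exact Finset.sum_congr rfl fun b _ => by rw [Matrix.mul_apply]
      simp only [e]
      refine HasDerivAt.fun_sum fun b _ => HasDerivAt.mul_const ?_ _
      refine HasDerivAt.fun_sum fun a _ => HasDerivAt.const_mul _ ?_
      have h1 := (tw_hasDerivAt g P t a b).sub_const (ud U x a b)
      rw [tw_der, hA] at h1
      simpa [Matrix.sub_apply] using h1
    unfold dkf
    refine HasDerivAt.fun_sum fun j _ => HasDerivAt.fun_sum fun k _ => ?_
    exact ((hent j k).const_mul _).const_mul _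
  -- the error
  have herr : HasDerivAt (fun τ => trace (K * rp s (tw g P τ)) - trace (K * rp s (ud U x)) -
      dkf s U x K (tw g P τ - ud U x)) 0 t := by
    rw [hasDerivAt_iff_isLittleO]
    have h0 : trace (K * rp s (tw g P t)) - trace (K * rp s (ud U x)) -
        dkf s U x K (tw g P t - ud U x) = 0 := by
      rw [hA, sub_self, sub_self]
      simp [dkf]
    simp only [h0, sub_zero, smul_zero]
    have hev : ∀ᶠ τ in 𝓝 t, nf (tw g P τ) ≤ R := by
      have hto : Tendsto (fun τ => fr (tw g P τ - tw g P t)) (𝓝 t) (𝓝 0) := by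
        refine hfr.trans_tendsto ?_
        have : Tendsto (fun τ : ℝ => (τ - t) ^ 2) (𝓝 t) (𝓝 ((t - t) ^ 2)) :=
          Continuous.tendsto (by fun_prop) t
        simpa using this
      filter_upwards [hto.eventually (gt_mem_nhds one_pos)] with τ hτ
      have h1 : nf (tw g P τ - tw g P t) ≤ 1 := by
        rw [nf]
        exact Real.sqrt_le_one.2 hτ.le
      calc nf (tw g P τ) = nf (tw g P t + (tw g P τ - tw g P t)) := by congr 1; abel
        _ ≤ nf (tw g P t) + nf (tw g P τ - tw g P t) := nf_add_le _ _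
        _ ≤ R := by rw [hR, hA] at *; linarith
    have hO : (fun τ => trace (K * rp s (tw g P τ)) - trace (K * rp s (ud U x)) -
        dkf s U x K (tw g P τ - ud U x)) =O[𝓝 t] fun τ => (τ - t) ^ 2 := by
      refine IsBigO.trans (g := fun τ => fr (tw g P τ - tw g P t)) ?_ hfr
      refine IsBigO.of_bound C ?_
      filter_upwards [hev] with τ hτ
      have h1 := hC (tw g P τ) (tw_psd g P hP τ) hτ
      rw [← hA, nf_sq] at h1
      rw [Real.norm_of_nonneg (fr_nonneg _), ← hA]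
      exact h1
    refine hO.trans_isLittleO ?_
    have h2 : (fun τ : ℝ => (τ - t) ^ 2) =o[𝓝 t] fun τ => τ - t := by
      have h3 : (fun y : ℝ => y ^ 2) =o[𝓝 0] fun y => y := by
        simpa using isLittleO_pow_id (𝕜 := ℝ) one_lt_two
      have h4 : Tendsto (fun τ : ℝ => τ - t) (𝓝 t) (𝓝 0) := by
        have : Tendsto (fun τ : ℝ => τ - t) (𝓝 t) (𝓝 (t - t)) :=
          Continuous.tendsto (by fun_prop) t
        simpa using this
      exact h3.comp_tendsto h4
    exact h2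
  have h := (herr.add hlin).add_const (trace (K * rp s (ud U x)))
  simp only [zero_add] at h
  refine h.congr_of_eventuallyEq (Eventually.of_forall fun τ => ?_)
  simp

end Pool.Agent.LibSchTw
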