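import Pool.Agent.LibSchTw.D2

/-! **D3.**  First and second derivative of `t ↦ tr (D_t P D_t)^s`, and the comparison of two such
functions which touch at `t = 0`. -/

open Matrix MeasureTheory Filter Asymptotics Topology
open scoped ComplexOrder

namespace Pool.Agent.LibSchTw

open Pool.Agent.LibSchP

variable {n : Type} [Fintype n] [DecidableEq n]

/-- `∑_jk |g_jk|² (x_j + x_k) (x_j^s - x_k^s)/(x_j - x_k)`, `g` in the eigenbasis `U` -/
noncomputable def G2 (s : ℝ) (g : n → ℝ) (U : Matrix n n ℂ) (x : n → ℝ) : ℝ :=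
  ∑ j, ∑ k, ‖(Uᴴ * dg g * U) j k‖ ^ 2 * ((x j + x k) * dd s (x j) (x k))

theorem conj_anti (g : n → ℝ) (U : Matrix n n ℂ) (hU : U ∈ unitaryGroup n ℂ) (x : n → ℝ) (j k : n) :
    (Uᴴ * ((2⁻¹ : ℂ) • (dg g * ud U x + ud U x * dg g)) * U) j k =
      (((x j + x k) / 2 : ℝ) : ℂ) * (Uᴴ * dg g * U) j k := by
  have h1 : Uᴴ * (dg g * ud U x) * U = (Uᴴ * dg g * U) * dg x := by
    unfold ud
    calc Uᴴ * (dg g * (U * dg x * Uᴴ)) * U = Uᴴ * dg g * U * dg x * (Uᴴ * U) := by
          simp only [Matrix.mul_assoc]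
      _ = _ := by rw [a2_uu U hU, Matrix.mul_one]
  have h2 : Uᴴ * (ud U x * dg g) * U = dg x * (Uᴴ * dg g * U) := by
    unfold ud
    calc Uᴴ * (U * dg x * Uᴴ * dg g) * U = (Uᴴ * U) * dg x * (Uᴴ * dg g * U) := by
          simp only [Matrix.mul_assoc]
      _ = _ := by rw [a2_uu U hU, Matrix.one_mul]
  rw [Matrix.mul_smul, Matrix.smul_mul, Matrix.mul_add, Matrix.add_mul, h1, h2, Matrix.smul_apply,
    Matrix.add_apply]
  have h3 : ((Uᴴ * dg g * U) * dg x) j k = (Uᴴ * dg g * U) j k * (x k : ℂ) := by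
    conv_lhs => rw [dg.eq_def x, Matrix.mul_diagonal]
  have h4 : (dg x * (Uᴴ * dg g * U)) j k = (x j : ℂ) * (Uᴴ * dg g * U) j k := by
    conv_lhs => rw [dg.eq_def x, Matrix.diagonal_mul]
  rw [h3, h4]
  push_cast
  simp only [smul_eq_mul]
  ring

theorem dkf_one (s : ℝ) (hs : 2 ≤ s) (g : n → ℝ) (U : Matrix n n ℂ) (hU : U ∈ unitaryGroup n ℂ)
    (x : n → ℝ) (hx : ∀ k, 0 ≤ x k) :
    dkf s U x 1 ((2⁻¹ : ℂ) • (dg g * ud U x + ud U x * dg g)) =
      (s : ℂ) * trace (dg g * rp s (ud U x)) := by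
  unfold dkf
  rw [rp_ud s U hU, trace_conj U hU, a2_back U hU, Finset.mul_sum, Matrix.mul_one, a2_uu U hU]
  refine Finset.sum_congr rfl fun j _ => ?_
  have e1 : ∑ k, (1 : Matrix n n ℂ) k j * ((dd s (x j) (x k) : ℂ) *
      (Uᴴ * ((2⁻¹ : ℂ) • (dg g * ud U x + ud U x * dg g)) * U) j k) =
      (dd s (x j) (x j) : ℂ) * (((x j + x j) / 2 : ℝ) * (Uᴴ * dg g * U) j j) := by
    rw [Finset.sum_eq_single j]
    · rw [Matrix.one_apply_eq, one_mul, conj_anti g U hU]
    · intro k _ hk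
      rw [Matrix.one_apply_ne hk, zero_mul]
    · intro h
      exact absurd (Finset.mem_univ j) h
  have e2 : ∑ k, (Uᴴ * dg g * U) k j * (dg fun k => x k ^ s) j k =
      (Uᴴ * dg g * U) j j * ((x j ^ s : ℝ) : ℂ) := by
    rw [Finset.sum_eq_single j]
    · rw [dg_apply, if_pos rfl]
    · intro k _ hk
      rw [dg_apply, if_neg (Ne.symm hk), mul_zero]
    · intro h
      exact absurd (Finset.mem_univ j) h
  rw [e1, e2]
  have e3 : dd s (x j) (x j) * ((x j + x j) / 2) = s * x j ^ s := by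
    have h1 : x j ^ (s - 1) * x j = x j ^ s := by
      rcases eq_or_lt_of_le (hx j) with h | h
      · rw [← h, mul_zero, Real.zero_rpow (by linarith)]
      · rw [← Real.rpow_add_one h.ne']
        congr 1
        ring
    unfold dd
    rw [if_pos rfl, ← h1]
    ring
  calc (dd s (x j) (x j) : ℂ) * (((x j + x j) / 2 : ℝ) * (Uᴴ * dg g * U) j j)
      = ((dd s (x j) (x j) * ((x j + x j) / 2) : ℝ) : ℂ) * (Uᴴ * dg g * U) j j := by
        push_cast; ring
    _ = _ := by rw [e3]; push_cast; ring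

theorem dkf_g (s : ℝ) (g : n → ℝ) (U : Matrix n n ℂ) (hU : U ∈ unitaryGroup n ℂ) (x : n → ℝ) :
    dkf s U x (dg g) ((2⁻¹ : ℂ) • (dg g * ud U x + ud U x * dg g)) = ((G2 s g U x / 2 : ℝ) : ℂ) := by
  unfold dkf G2
  push_cast
  rw [Finset.sum_div]
  refine Finset.sum_congr rfl fun j _ => ?_
  rw [Finset.sum_div]
  refine Finset.sum_congr rfl fun k _ => ?_
  rw [conj_anti g U hU]
  have hH : (Uᴴ * dg g * U).IsHermitian := isHermitian_conjTranspose_mul_mul U (dg_isHermitian g)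
  have h1 : (Uᴴ * dg g * U) k j = star ((Uᴴ * dg g * U) j k) := (hH.apply k j).symm
  have h2 : star ((Uᴴ * dg g * U) j k) * (Uᴴ * dg g * U) j k =
      ((‖(Uᴴ * dg g * U) j k‖ ^ 2 : ℝ) : ℂ) := by
    push_cast
    exact Complex.conj_mul' _
  rw [h1]
  calc star ((Uᴴ * dg g * U) j k) * ((dd s (x j) (x k) : ℂ) *
        ((((x j + x k) / 2 : ℝ) : ℂ) * (Uᴴ * dg g * U) j k))
      = (star ((Uᴴ * dg g * U) j k) * (Uᴴ * dg g * U) j k) * ((dd s (x j) (x k) : ℂ) *
          (((x j + x k) / 2 : ℝ) : ℂ)) := by ring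
    _ = _ := by rw [h2]; push_cast; ring

theorem hasDerivAt_re {f : ℝ → ℂ} {f' : ℂ} {t : ℝ} (h : HasDerivAt f f' t) :
    HasDerivAt (fun τ => (f τ).re) f'.re t := by
  have h1 := (Complex.reCLM.hasFDerivAt (x := f t)).comp_hasDerivAt t h
  exact h1

/-- first derivative, at every point -/
theorem tr_deriv (s : ℝ) (hs : 2 ≤ s) (g : n → ℝ) (P : Matrix n n ℂ) (hP : P.PosSemidef) (t : ℝ) :
    HasDerivAt (fun τ => (trace (rp s (tw g P τ))).re)
      (s * (trace (dg g * rp s (tw g P t))).re) t := by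
  obtain ⟨U, hU, x, hx, hA⟩ := ud_exists_nonneg _ (tw_psd g P hP t)
  have h := hasDerivAt_trace s hs g P hP 1 U hU x hx t hA
  rw [dkf_one s hs g U hU x hx, ← hA] at h
  simp only [Matrix.one_mul] at h
  have h2 := hasDerivAt_re h
  rwa [Complex.re_ofReal_mul] at h2

/-- second derivative at `0` -/
theorem tr_deriv2 (s : ℝ) (hs : 2 ≤ s) (g : n → ℝ) (P : Matrix n n ℂ) (U : Matrix n n ℂ)
    (hU : U ∈ unitaryGroup n ℂ) (x : n → ℝ) (hx : ∀ k, 0 ≤ x k) (hP : P = ud U x) :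
    HasDerivAt (fun τ => (trace (dg g * rp s (tw g P τ))).re) (G2 s g U x / 2) 0 := by
  have hPs : P.PosSemidef := hP ▸ ud_posSemidef U x hx
  have h := hasDerivAt_trace s hs g P hPs (dg g) U hU x hx 0 (by rw [tw_zero, hP])
  rw [dkf_g s g U hU x] at h
  have h2 := hasDerivAt_re h
  rwa [Complex.ofReal_re] at h2

/-- second derivative test (necessary condition) -/
theorem second_test (F F' : ℝ → ℝ) (c : ℝ) (h1 : ∀ t, HasDerivAt F (F' t) t)
    (h2 : HasDerivAt F' c 0) (h0 : F 0 = 0) (hpos : ∀ᶠ t in 𝓝 (0 : ℝ), 0 ≤ F t) :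
    F' 0 = 0 ∧ 0 ≤ c := by
  have hmin : IsLocalMin F 0 := by
    filter_upwards [hpos] with t ht
    rw [h0]; exact ht
  have hF0 : F' 0 = 0 := hmin.hasDerivAt_eq_zero (h1 0)
  refine ⟨hF0, ?_⟩
  by_contra hc
  push Not at hc
  -- `F' t ≤ (c/2) t` for small `t > 0`
  have h3 := (hasDerivAt_iff_isLittleO.1 h2).def (c := -c / 2) (by linarith)
  simp only [sub_zero, hF0, smul_eq_mul] at h3
  obtain ⟨δ, hδ, hball⟩ := Metric.eventually_nhds_iff.1 (h3.and hpos)
  have hneg : ∀ t, 0 < t → t < δ → F' t < 0 := by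
    intro t ht htδ
    have h4 := (hball (y := t) (by rw [Real.dist_eq, sub_zero, abs_of_pos ht]; exact htδ)).1
    rw [Real.norm_eq_abs, Real.norm_eq_abs, abs_of_pos ht] at h4
    have h5 := (abs_le.1 h4).2
    nlinarith
  have hmono : StrictAntiOn F (Set.Icc 0 (δ / 2)) := by
    refine strictAntiOn_of_deriv_neg (convex_Icc _ _)
      (fun t _ => (h1 t).continuousAt.continuousWithinAt) fun t ht => ?_
    rw [interior_Icc] at ht
    rw [(h1 t).deriv]
    exact hneg t ht.1 (by linarith [ht.2])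
  have h6 := hmono (Set.left_mem_Icc.2 (by linarith)) (Set.right_mem_Icc.2 (by linarith))
    (by linarith : (0 : ℝ) < δ / 2)
  have h7 := (hball (y := δ / 2) (by rw [Real.dist_eq, sub_zero, abs_of_pos (by linarith)]; linarith)).2
  rw [h0] at h6
  linarith

/-- If `tr (D_t P D_t)^s ≥ R tr (D_t P' D_t)^s` near `t = 0` with equality at `t = 0`, then the
first derivatives agree and the second derivatives are ordered. -/
theorem twist_compare {n' : Type} [Fintype n'] [DecidableEq n'] (s R : ℝ) (hs : 2 ≤ s)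
    (g : n → ℝ) (g' : n' → ℝ) (P : Matrix n n ℂ) (P' : Matrix n' n' ℂ)
    (U : Matrix n n ℂ) (hU : U ∈ unitaryGroup n ℂ) (x : n → ℝ) (hx : ∀ k, 0 ≤ x k) (hP : P = ud U x)
    (U' : Matrix n' n' ℂ) (hU' : U' ∈ unitaryGroup n' ℂ) (x' : n' → ℝ) (hx' : ∀ k, 0 ≤ x' k)
    (hP' : P' = ud U' x')
    (h0 : (trace (rp s P)).re = R * (trace (rp s P')).re)
    (hge : ∀ᶠ t in 𝓝 (0 : ℝ), R * (trace (rp s (tw g' P' t))).re ≤ (trace (rp s (tw g P t))).re) :
    (trace (dg g * rp s P)).re = R * (trace (dg g' * rp s P')).re ∧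
      R * G2 s g' U' x' ≤ G2 s g U x := by
  have hPs : P.PosSemidef := hP ▸ ud_posSemidef U x hx
  have hPs' : P'.PosSemidef := hP' ▸ ud_posSemidef U' x' hx'
  have hA := fun t => (tr_deriv s hs g P hPs t).sub ((tr_deriv s hs g' P' hPs' t).const_mul R)
  have hB := ((tr_deriv2 s hs g P U hU x hx hP).const_mul s).sub
    (((tr_deriv2 s hs g' P' U' hU' x' hx' hP').const_mul s).const_mul R)
  have h := second_test _ _ _ hA hB (by simp only [tw_zero, Pi.sub_apply, h0]; ring) (by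
    filter_upwards [hge] with t ht
    simp only [Pi.sub_apply]
    linarith)
  simp only [tw_zero] at h
  obtain ⟨h1, h2⟩ := h
  have hs0 : 0 < s := by linarith
  constructor
  · have : s * ((trace (dg g * rp s P)).re - R * (trace (dg g' * rp s P')).re) = 0 := by
      linarith
    rcases mul_eq_zero.1 this with h | h
    · linarith
    · linarith
  · have : 0 ≤ s / 2 * (G2 s g U x - R * G2 s g' U' x') := by
      have e : s * (G2 s g U x / 2) - R * (s * (G2 s g' U' x' / 2)) =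
        s / 2 * (G2 s g U x - R * G2 s g' U' x') := by ring
      rw [← e]; exact h2
    have h3 := (mul_nonneg_iff_of_pos_left (by positivity)).1 this
    linarith

end Pool.Agent.LibSchTw
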