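import Pool.Agent.LibSchTw.L1
import Pool.Agent.LibSchQ.J1
import Pool.Agent.LibSchTri.S18

/-! **E1.**  `pw p` is continuous for every `p > 0`; existence of the extremal block matrices. -/

open Matrix Filter Topology
open scoped ComplexOrder

namespace Pool.Agent.LibSchTw

open Pool.Agent.LibSchP

section cont

variable {m n : Type} [Fintype m] [Fintype n] [DecidableEq n]

theorem rpow_sub_le (σ a b : ℝ) (h0 : 0 < σ) (h1 : σ ≤ 1) (ha : 0 ≤ a) (hb : 0 ≤ b) :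
    |a ^ σ - b ^ σ| ≤ |a - b| ^ σ := by
  wlog h : b ≤ a generalizing a b
  · rw [abs_sub_comm, abs_sub_comm a b]
    exact this b a hb ha (by linarith)
  have h2 : a ^ σ ≤ b ^ σ + (a - b) ^ σ := by
    have := Real.rpow_add_le_add_rpow hb (by linarith : 0 ≤ a - b) h0.le h1
    simpa using this
  have h3 : b ^ σ ≤ a ^ σ := Real.rpow_le_rpow hb h h0.le
  rw [abs_of_nonneg (by linarith), abs_of_nonneg (by linarith)]
  linarith

/-- Hölder continuity of the powers `0 < σ ≤ 1` -/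
theorem rp_holder (σ : ℝ) (h0 : 0 < σ) (h1 : σ ≤ 1) (X Y : Matrix n n ℂ) (hX : X.PosSemidef)
    (hY : Y.PosSemidef) :
    fr (rp σ X - rp σ Y) ≤ (Fintype.card n) ^ 2 * (nf (X - Y) ^ σ) ^ 2 := by
  obtain ⟨U, hU, x, hx, rfl⟩ := ud_exists_nonneg X hX
  obtain ⟨V, hV, y, hy, rfl⟩ := ud_exists_nonneg Y hY
  rw [rp_ud σ U hU x, rp_ud σ V hV y, ud_fr U V hU hV]
  obtain ⟨δ, hδ⟩ : ∃ δ, δ = nf (ud U x - ud V y) := ⟨_, rfl⟩
  have hδ0 : 0 ≤ δ := by rw [hδ]; exact nf_nonneg _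
  have hfr := ud_fr U V hU hV x y
  have hterm : ∀ j k, ‖(Uᴴ * V) j k‖ ^ 2 * (x j ^ σ - y k ^ σ) ^ 2 ≤ (δ ^ σ) ^ 2 := by
    intro j k
    have h2 : ‖(Uᴴ * V) j k‖ ^ 2 * (x j - y k) ^ 2 ≤ δ ^ 2 := by
      rw [hδ, nf_sq, hfr]
      refine le_trans ?_ (Finset.single_le_sum (f := fun j => ∑ k, ‖(Uᴴ * V) j k‖ ^ 2 *
        (x j - y k) ^ 2) (fun j _ => Finset.sum_nonneg fun k _ => by positivity)
        (Finset.mem_univ j))
      exact Finset.single_le_sum (f := fun k => ‖(Uᴴ * V) j k‖ ^ 2 * (x j - y k) ^ 2)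
        (fun k _ => by positivity) (Finset.mem_univ k)
    have h3 : ‖(Uᴴ * V) j k‖ * |x j - y k| ≤ δ := by
      refine abs_le_of_sq_le_sq' ?_ hδ0 |>.2
      rw [mul_pow, sq_abs]
      exact h2
    have hw1 : ‖(Uᴴ * V) j k‖ ≤ 1 := by
      have h4 := (weights U V hU hV).1 j
      have h5 : ‖(Uᴴ * V) j k‖ ^ 2 ≤ 1 := by
        rw [← h4]
        exact Finset.single_le_sum (f := fun k => ‖(Uᴴ * V) j k‖ ^ 2)
          (fun k _ => sq_nonneg _) (Finset.mem_univ k)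
      nlinarith [norm_nonneg ((Uᴴ * V) j k)]
    have h6 : ‖(Uᴴ * V) j k‖ * |x j ^ σ - y k ^ σ| ≤ δ ^ σ := by
      have h7 := rpow_sub_le σ (x j) (y k) h0 h1 (hx j) (hy k)
      have h8 : ‖(Uᴴ * V) j k‖ ≤ ‖(Uᴴ * V) j k‖ ^ σ := by
        conv_lhs => rw [← Real.rpow_one ‖(Uᴴ * V) j k‖]
        rcases eq_or_lt_of_le (norm_nonneg ((Uᴴ * V) j k)) with h | h
        · rw [← h, Real.zero_rpow one_ne_zero]
          exact Real.rpow_nonneg le_rfl _
        · exact Real.rpow_le_rpow_of_exponent_ge h hw1 h1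
      calc ‖(Uᴴ * V) j k‖ * |x j ^ σ - y k ^ σ| ≤ ‖(Uᴴ * V) j k‖ ^ σ * |x j - y k| ^ σ :=
            mul_le_mul h8 h7 (abs_nonneg _) (Real.rpow_nonneg (norm_nonneg _) _)
        _ = (‖(Uᴴ * V) j k‖ * |x j - y k|) ^ σ :=
            (Real.mul_rpow (norm_nonneg _) (abs_nonneg _)).symm
        _ ≤ δ ^ σ := Real.rpow_le_rpow (by positivity) h3 h0.le
    have h9 : ‖(Uᴴ * V) j k‖ ^ 2 * (x j ^ σ - y k ^ σ) ^ 2 =
        (‖(Uᴴ * V) j k‖ * |x j ^ σ - y k ^ σ|) ^ 2 := by rw [mul_pow, sq_abs]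
    rw [h9]
    exact pow_le_pow_left₀ (by positivity) h6 2
  calc ∑ j, ∑ k, ‖(Uᴴ * V) j k‖ ^ 2 * (x j ^ σ - y k ^ σ) ^ 2
      ≤ ∑ j : n, ∑ k : n, (δ ^ σ) ^ 2 :=
        Finset.sum_le_sum fun j _ => Finset.sum_le_sum fun k _ => hterm j k
    _ = _ := by
        simp only [Finset.sum_const, Finset.card_univ, nsmul_eq_mul, hδ]
        ring

/-- `M ↦ rp σ (Mᴴ M)` is continuous -/
theorem rp_gram_continuous (σ : ℝ) (h0 : 0 < σ) :
    Continuous fun M : Matrix m n ℂ => rp σ (Mᴴ * M) := by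
  rw [continuous_iff_continuousAt]
  intro A
  have hsub : Continuous fun M : Matrix m n ℂ => nf (Mᴴ * M - Aᴴ * A) :=
    LibSchQ.j1_continuous_nf.comp (by fun_prop)
  have hto : Tendsto (fun M : Matrix m n ℂ => nf (Mᴴ * M - Aᴴ * A)) (𝓝 A) (𝓝 0) := by
    have := hsub.tendsto A
    rwa [sub_self, nf_zero] at this
  have key : Tendsto (fun M : Matrix m n ℂ => nf (rp σ (Mᴴ * M) - rp σ (Aᴴ * A))) (𝓝 A) (𝓝 0) := by
    rcases le_or_gt σ 1 with h1 | h1
    · have hb : ∀ M : Matrix m n ℂ, nf (rp σ (Mᴴ * M) - rp σ (Aᴴ * A)) ≤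
          Fintype.card n * nf (Mᴴ * M - Aᴴ * A) ^ σ := fun M => by
        have h := rp_holder σ h0 h1 _ _ (posSemidef_conjTranspose_mul_self M)
          (posSemidef_conjTranspose_mul_self A)
        refine abs_le_of_sq_le_sq' ?_ (mul_nonneg (Nat.cast_nonneg _)
          (Real.rpow_nonneg (nf_nonneg _) _)) |>.2
        rw [nf_sq, mul_pow]
        exact h
      refine squeeze_zero (fun M => nf_nonneg _) hb ?_
      have h2 := (hto.rpow_const (p := σ) (Or.inr h0.le)).const_mul (Fintype.card n : ℝ)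
      rwa [Real.zero_rpow h0.ne', mul_zero] at h2
    · obtain ⟨L, hL, hlip⟩ := rp_lip (n := n) σ (nf (Aᴴ * A) + 1) h1.le
        (by linarith [nf_nonneg (Aᴴ * A)])
      have hev : ∀ᶠ M : Matrix m n ℂ in 𝓝 A, nf (Mᴴ * M - Aᴴ * A) ≤ 1 := by
        filter_upwards [hto.eventually (gt_mem_nhds one_pos)] with M hM
        exact hM.le
      refine squeeze_zero' (g := fun M => L * nf (Mᴴ * M - Aᴴ * A))
        (Eventually.of_forall fun M => nf_nonneg _) ?_ ?_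
      · filter_upwards [hev] with M hM
        refine hlip _ _ (posSemidef_conjTranspose_mul_self M)
          (posSemidef_conjTranspose_mul_self A) ?_ (by linarith)
        calc nf (Mᴴ * M) = nf (Aᴴ * A + (Mᴴ * M - Aᴴ * A)) := by congr 1; abel
          _ ≤ nf (Aᴴ * A) + nf (Mᴴ * M - Aᴴ * A) := nf_add_le _ _
          _ ≤ _ := by linarith
      · simpa using hto.const_mul L
  show Tendsto (fun M : Matrix m n ℂ => rp σ (Mᴴ * M)) (𝓝 A) (𝓝 (rp σ (Aᴴ * A)))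
  refine tendsto_pi_nhds.2 fun i => tendsto_pi_nhds.2 fun j => ?_
  rw [tendsto_iff_norm_sub_tendsto_zero]
  refine squeeze_zero (fun M => norm_nonneg _) (fun M => ?_) key
  have := norm_le_nf (rp σ (Mᴴ * M) - rp σ (Aᴴ * A)) i j
  rwa [Matrix.sub_apply] at this

theorem pw_cont (p : ℝ) (hp : 0 < p) : Continuous fun M : Matrix m n ℂ => LibSch.pw p M := by
  have h : (fun M : Matrix m n ℂ => LibSch.pw p M) =
      fun M => (trace (rp (p / 2) (Mᴴ * M))).re := by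
    classical
    funext M
    exact pw_eq_trace_rp p hp M
  rw [h]
  exact Complex.continuous_re.comp ((rp_gram_continuous (p / 2) (by linarith)).matrix_trace)

theorem sn_cont (p : ℝ) (hp : 0 < p) : Continuous fun M : Matrix m n ℂ => LibSch.sn p M := by
  unfold LibSch.sn
  exact (pw_cont p hp).rpow_const fun _ => Or.inr (by positivity)

end cont

section homog

theorem pw_smul' {m n : Type} [Fintype m] [Fintype n] [DecidableEq n] (p : ℝ) (hp : 0 < p) (c : ℝ)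
    (M : Matrix m n ℂ) : LibSch.pw p ((c : ℂ) • M) = |c| ^ p * LibSch.pw p M := by
  classical
  exact LibSchQ.pw_smul p hp c M

theorem sn_smul' {m n : Type} [Fintype m] [Fintype n] [DecidableEq n] (p : ℝ) (hp : 0 < p) (c : ℝ)
    (M : Matrix m n ℂ) : LibSch.sn p ((c : ℂ) • M) = |c| * LibSch.sn p M := by
  unfold LibSch.sn
  rw [pw_smul' p hp, Real.mul_rpow (Real.rpow_nonneg (abs_nonneg _) _) (LibSch.pw_nonneg _ _),
    ← Real.rpow_mul (abs_nonneg _), mul_one_div_cancel hp.ne', Real.rpow_one]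

variable {N : ℕ} {m₁ m₂ : Type} {n : Fin N → Type} [Fintype m₁] [Fintype m₂]
  [∀ k, Fintype (n k)] [∀ k, DecidableEq (n k)]

theorem comp_smul (p : ℝ) (hp : 0 < p) (c : ℝ) (A : ∀ k, Matrix m₁ (n k) ℂ)
    (B : ∀ k, Matrix m₂ (n k) ℂ) :
    LibSch.comp p (fun k => (c : ℂ) • A k) (fun k => (c : ℂ) • B k) =
      ((|c| : ℝ) : ℂ) • LibSch.comp p A B := by
  ext i k
  simp only [LibSch.comp, Matrix.of_apply, Matrix.smul_apply, sn_smul' p hp, smul_eq_mul]
  fin_cases i <;> simp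

omit [Fintype m₁] [Fintype m₂] [∀ k, Fintype (n k)] [∀ k, DecidableEq (n k)] in
theorem blk_smul (c : ℂ) (A : ∀ k, Matrix m₁ (n k) ℂ) (B : ∀ k, Matrix m₂ (n k) ℂ) :
    LibSch.blk (fun k => c • A k) (fun k => c • B k) = c • LibSch.blk A B := by
  ext i x
  rcases i with i | i <;> simp [LibSch.blk, Matrix.smul_apply]

end homog

end Pool.Agent.LibSchTw
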