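import Pool.Agent.LibSchTw.E1

/-! **E2.**  Existence of the extremal block matrices (maximal and minimal ratio). -/

open Matrix Filter Topology
open scoped ComplexOrder

namespace Pool.Agent.LibSchTw

open Pool.Agent.LibSchP

theorem pw_pos {m n : Type} [Fintype m] [Fintype n] [DecidableEq n] (p : ℝ)
    (M : Matrix m n ℂ) (hM : M ≠ 0) : 0 < LibSch.pw p M := by
  rcases (LibSch.pw_nonneg p M).lt_or_eq with h | h
  · exact h
  exfalso
  apply hM
  have h1 : ∀ j, (isHermitian_conjTranspose_mul_self M).eigenvalues j = 0 := by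
    intro j
    have h2 : ∑ j, (isHermitian_conjTranspose_mul_self M).eigenvalues j ^ (p / 2) = 0 := h.symm
    have h3 := (Finset.sum_eq_zero_iff_of_nonneg fun j _ =>
      Real.rpow_nonneg (LibSch.rk_eig_nonneg M j) _).1 h2 j (Finset.mem_univ j)
    rcases (LibSch.rk_eig_nonneg M j).lt_or_eq with h4 | h4
    · exact absurd h3 (Real.rpow_pos_of_pos h4 _).ne'
    · exact h4.symm
  have h5 := LibSch.rk_sum_eig M
  rw [Finset.sum_eq_zero fun j _ => h1 j] at h5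
  ext i j
  have h6 := (Finset.sum_eq_zero_iff_of_nonneg fun i _ => Finset.sum_nonneg fun j _ =>
    sq_nonneg ‖M i j‖).1 h5.symm i (Finset.mem_univ i)
  have h7 := (Finset.sum_eq_zero_iff_of_nonneg fun j _ =>
    sq_nonneg ‖M i j‖).1 h6 j (Finset.mem_univ j)
  simpa using h7

theorem pw_zero_iff {m n : Type} [Fintype m] [Fintype n] [DecidableEq n] (p : ℝ) (hp : 0 < p)
    (M : Matrix m n ℂ) : LibSch.pw p M = 0 ↔ M = 0 := by
  constructor
  · intro h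
    by_contra h1
    exact (pw_pos p M h1).ne' h
  · rintro rfl
    exact LibSchTri.s18_pw_zero p hp

theorem sn_zero_iff {m n : Type} [Fintype m] [Fintype n] [DecidableEq n] (p : ℝ) (hp : 0 < p)
    (M : Matrix m n ℂ) : LibSch.sn p M = 0 ↔ M = 0 := by
  unfold LibSch.sn
  rw [Real.rpow_eq_zero (LibSch.pw_nonneg _ _) (by positivity), pw_zero_iff p hp]

section ext

variable {N : ℕ} {m₁ m₂ : Type} {n : Fin N → Type} [Fintype m₁] [Fintype m₂]
  [∀ k, Fintype (n k)] [∀ k, DecidableEq (n k)]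

theorem blk_eq_zero (A : ∀ k, Matrix m₁ (n k) ℂ) (B : ∀ k, Matrix m₂ (n k) ℂ)
    (h : LibSch.blk A B = 0) : (∀ k, A k = 0) ∧ ∀ k, B k = 0 := by
  refine ⟨fun k => ?_, fun k => ?_⟩
  · ext i j
    have := congrFun (congrFun h (Sum.inl i)) ⟨k, j⟩
    simpa [LibSch.blk] using this
  · ext i j
    have := congrFun (congrFun h (Sum.inr i)) ⟨k, j⟩
    simpa [LibSch.blk] using this

theorem blk_zero : LibSch.blk (fun k => (0 : Matrix m₁ (n k) ℂ))
    (fun k => (0 : Matrix m₂ (n k) ℂ)) = 0 := by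
  ext i x
  rcases i with i | i <;> simp [LibSch.blk]

theorem comp_eq_zero (p : ℝ) (hp : 0 < p) (A : ∀ k, Matrix m₁ (n k) ℂ)
    (B : ∀ k, Matrix m₂ (n k) ℂ) (h : LibSch.comp p A B = 0) :
    (∀ k, A k = 0) ∧ ∀ k, B k = 0 := by
  refine ⟨fun k => ?_, fun k => ?_⟩
  · have := congrFun (congrFun h 0) k
    simp only [LibSch.comp, Matrix.of_apply, Matrix.cons_val_zero, Matrix.zero_apply,
      Complex.ofReal_eq_zero] at this
    exact (sn_zero_iff p hp _).1 this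
  · have := congrFun (congrFun h 1) k
    simp only [LibSch.comp, Matrix.of_apply, Matrix.cons_val_one, Matrix.zero_apply,
      Complex.ofReal_eq_zero] at this
    exact (sn_zero_iff p hp _).1 this

/-- the index type of the entries -/
abbrev Ix (m₁ m₂ : Type) {N : ℕ} (n : Fin N → Type) : Type :=
  (Σ k, m₁ × n k) ⊕ (Σ k, m₂ × n k)

def mA (x : Ix m₁ m₂ n → ℂ) (k : Fin N) : Matrix m₁ (n k) ℂ :=
  Matrix.of fun i j => x (Sum.inl ⟨k, i, j⟩)

def mB (x : Ix m₁ m₂ n → ℂ) (k : Fin N) : Matrix m₂ (n k) ℂ :=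
  Matrix.of fun i j => x (Sum.inr ⟨k, i, j⟩)

def mX (A : ∀ k, Matrix m₁ (n k) ℂ) (B : ∀ k, Matrix m₂ (n k) ℂ) : Ix m₁ m₂ n → ℂ :=
  Sum.elim (fun y => A y.1 y.2.1 y.2.2) (fun y => B y.1 y.2.1 y.2.2)

theorem mA_cont (k : Fin N) : Continuous fun x : Ix m₁ m₂ n → ℂ => mA x k :=
  continuous_pi fun i => continuous_pi fun j => continuous_apply _

theorem mB_cont (k : Fin N) : Continuous fun x : Ix m₁ m₂ n → ℂ => mB x k :=
  continuous_pi fun i => continuous_pi fun j => continuous_apply _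

theorem pwblk_cont (p : ℝ) (hp : 0 < p) :
    Continuous fun x : Ix m₁ m₂ n → ℂ => LibSch.pw p (LibSch.blk (mA x) (mB x)) := by
  refine (pw_cont p hp).comp ?_
  refine continuous_pi fun i => continuous_pi fun y => ?_
  rcases i with i | i
  · exact continuous_apply (Sum.inl ⟨y.1, i, y.2⟩ : Ix m₁ m₂ n)
  · exact continuous_apply (Sum.inr ⟨y.1, i, y.2⟩ : Ix m₁ m₂ n)

theorem pwcomp_cont (p : ℝ) (hp : 0 < p) :
    Continuous fun x : Ix m₁ m₂ n → ℂ => LibSch.pw p (LibSch.comp p (mA x) (mB x)) := by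
  refine (pw_cont p hp).comp ?_
  refine continuous_pi fun i => continuous_pi fun k => ?_
  fin_cases i
  · exact Complex.continuous_ofReal.comp ((sn_cont p hp).comp (mA_cont k))
  · exact Complex.continuous_ofReal.comp ((sn_cont p hp).comp (mB_cont k))

/-- the ratio, its continuity on the unit sphere, and homogeneity -/
theorem ratio_bdd (p : ℝ) (hp : 0 < p) (A₀ : ∀ k, Matrix m₁ (n k) ℂ)
    (B₀ : ∀ k, Matrix m₂ (n k) ℂ) (h0 : LibSch.comp p A₀ B₀ ≠ 0) :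
    (∃ (A : ∀ k, Matrix m₁ (n k) ℂ) (B : ∀ k, Matrix m₂ (n k) ℂ),
      0 < LibSch.pw p (LibSch.comp p A B) ∧
      ∀ (A' : ∀ k, Matrix m₁ (n k) ℂ) (B' : ∀ k, Matrix m₂ (n k) ℂ),
        LibSch.pw p (LibSch.blk A' B') * LibSch.pw p (LibSch.comp p A B) ≤
        LibSch.pw p (LibSch.blk A B) * LibSch.pw p (LibSch.comp p A' B')) ∧
    (∃ (A : ∀ k, Matrix m₁ (n k) ℂ) (B : ∀ k, Matrix m₂ (n k) ℂ),
      0 < LibSch.pw p (LibSch.comp p A B) ∧
      ∀ (A' : ∀ k, Matrix m₁ (n k) ℂ) (B' : ∀ k, Matrix m₂ (n k) ℂ),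
        LibSch.pw p (LibSch.blk A B) * LibSch.pw p (LibSch.comp p A' B') ≤
        LibSch.pw p (LibSch.blk A' B') * LibSch.pw p (LibSch.comp p A B)) := by
  have hpos : ∀ x : Ix m₁ m₂ n → ℂ, x ≠ 0 → 0 < LibSch.pw p (LibSch.comp p (mA x) (mB x)) := by
    intro x hx
    refine pw_pos p _ fun h => hx ?_
    obtain ⟨h1, h2⟩ := comp_eq_zero p hp _ _ h
    funext i
    rcases i with ⟨k, i, j⟩ | ⟨k, i, j⟩
    · exact congrFun (congrFun (h1 k) i) j
    · exact congrFun (congrFun (h2 k) i) j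
  have hx0 : mX A₀ B₀ ≠ 0 := by
    intro h
    apply h0
    have hA : ∀ k, A₀ k = 0 := fun k => by
      ext i j
      exact congrFun h (Sum.inl ⟨k, i, j⟩)
    have hB : ∀ k, B₀ k = 0 := fun k => by
      ext i j
      exact congrFun h (Sum.inr ⟨k, i, j⟩)
    ext i k
    fin_cases i
    · simp [LibSch.comp, hA, (sn_zero_iff p hp _).2 rfl]
    · simp [LibSch.comp, hB, (sn_zero_iff p hp _).2 rfl]
  have hc : IsCompact (Metric.sphere (0 : Ix m₁ m₂ n → ℂ) 1) := isCompact_sphere _ _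
  have hnorm : ∀ x : Ix m₁ m₂ n → ℂ, x ≠ 0 →
      ((‖x‖⁻¹ : ℝ) : ℂ) • x ∈ Metric.sphere (0 : Ix m₁ m₂ n → ℂ) 1 := by
    intro x hx
    rw [mem_sphere_zero_iff_norm, norm_smul, Complex.norm_real, norm_inv, norm_norm,
      inv_mul_cancel₀ (norm_ne_zero_iff.2 hx)]
  have hne : (Metric.sphere (0 : Ix m₁ m₂ n → ℂ) 1).Nonempty := ⟨_, hnorm _ hx0⟩
  have hne0 : ∀ x ∈ Metric.sphere (0 : Ix m₁ m₂ n → ℂ) 1, x ≠ 0 := by
    intro x hx h
    rw [mem_sphere_zero_iff_norm, h, norm_zero] at hx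
    exact zero_ne_one hx
  have hcont : ContinuousOn (fun x : Ix m₁ m₂ n → ℂ => LibSch.pw p (LibSch.blk (mA x) (mB x)) /
      LibSch.pw p (LibSch.comp p (mA x) (mB x))) (Metric.sphere (0 : Ix m₁ m₂ n → ℂ) 1) :=
    (pwblk_cont p hp).continuousOn.div (pwcomp_cont p hp).continuousOn
      fun x hx => (hpos x (hne0 x hx)).ne'
  -- scaling
  have hsc : ∀ (A' : ∀ k, Matrix m₁ (n k) ℂ) (B' : ∀ k, Matrix m₂ (n k) ℂ), mX A' B' ≠ 0 →
      ∃ y ∈ Metric.sphere (0 : Ix m₁ m₂ n → ℂ) 1, ∃ c : ℝ, 0 < c ∧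
      LibSch.pw p (LibSch.blk (mA y) (mB y)) = c * LibSch.pw p (LibSch.blk A' B') ∧
      LibSch.pw p (LibSch.comp p (mA y) (mB y)) = c * LibSch.pw p (LibSch.comp p A' B') := by
    intro A' B' hx
    refine ⟨_, hnorm _ hx, |‖mX A' B'‖⁻¹| ^ p, Real.rpow_pos_of_pos
      (abs_pos.2 (inv_ne_zero (norm_ne_zero_iff.2 hx))) _, ?_, ?_⟩
    · have e1 : LibSch.blk (mA (((‖mX A' B'‖⁻¹ : ℝ) : ℂ) • mX A' B'))
          (mB (((‖mX A' B'‖⁻¹ : ℝ) : ℂ) • mX A' B')) =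
          ((‖mX A' B'‖⁻¹ : ℝ) : ℂ) • LibSch.blk A' B' := by
        ext i y
        rcases i with i | i <;> simp [LibSch.blk, mA, mB, mX]
      rw [e1, pw_smul' p hp]
    · have e1 : (mA (((‖mX A' B'‖⁻¹ : ℝ) : ℂ) • mX A' B')) =
          fun k => ((‖mX A' B'‖⁻¹ : ℝ) : ℂ) • A' k := by
        funext k
        ext i j
        simp [mA, mX]
      have e2 : (mB (((‖mX A' B'‖⁻¹ : ℝ) : ℂ) • mX A' B')) =
          fun k => ((‖mX A' B'‖⁻¹ : ℝ) : ℂ) • B' k := by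
        funext k
        ext i j
        simp [mB, mX]
      rw [e1, e2, comp_smul p hp, pw_smul' p hp, abs_abs]
  have hz : ∀ (A' : ∀ k, Matrix m₁ (n k) ℂ) (B' : ∀ k, Matrix m₂ (n k) ℂ), mX A' B' = 0 →
      LibSch.pw p (LibSch.blk A' B') = 0 ∧ LibSch.pw p (LibSch.comp p A' B') = 0 := by
    intro A' B' h
    have hA : ∀ k, A' k = 0 := fun k => by
      ext i j
      exact congrFun h (Sum.inl ⟨k, i, j⟩)
    have hB : ∀ k, B' k = 0 := fun k => by
      ext i j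
      exact congrFun h (Sum.inr ⟨k, i, j⟩)
    obtain rfl : A' = fun k => 0 := funext hA
    obtain rfl : B' = fun k => 0 := funext hB
    refine ⟨?_, ?_⟩
    · rw [blk_zero, LibSchTri.s18_pw_zero p hp]
    · rw [pw_zero_iff p hp]
      ext i k
      fin_cases i
      · simp [LibSch.comp, (sn_zero_iff p hp _).2 rfl]
      · simp [LibSch.comp, (sn_zero_iff p hp _).2 rfl]
  constructor
  · obtain ⟨x, hx, hmax⟩ := hc.exists_isMaxOn hne hcont
    refine ⟨mA x, mB x, hpos x (hne0 x hx), fun A' B' => ?_⟩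
    by_cases h : mX A' B' = 0
    · obtain ⟨h1, h2⟩ := hz A' B' h
      rw [h1, h2, zero_mul, mul_zero]
    · obtain ⟨y, hy, c, hc0, h1, h2⟩ := hsc A' B' h
      have h3 := hmax hy
      simp only [Set.mem_setOf_eq] at h3
      rw [div_le_div_iff₀ (hpos y (hne0 y hy)) (hpos x (hne0 x hx)), h1, h2] at h3
      have h4 : c * (LibSch.pw p (LibSch.blk A' B') * LibSch.pw p (LibSch.comp p (mA x) (mB x))) ≤
          c * (LibSch.pw p (LibSch.blk (mA x) (mB x)) * LibSch.pw p (LibSch.comp p A' B')) := by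
        linarith
      exact le_of_mul_le_mul_left h4 hc0
  · obtain ⟨x, hx, hmin⟩ := hc.exists_isMinOn hne hcont
    refine ⟨mA x, mB x, hpos x (hne0 x hx), fun A' B' => ?_⟩
    by_cases h : mX A' B' = 0
    · obtain ⟨h1, h2⟩ := hz A' B' h
      rw [h1, h2, zero_mul, mul_zero]
    · obtain ⟨y, hy, c, hc0, h1, h2⟩ := hsc A' B' h
      have h3 := hmin hy
      simp only [Set.mem_setOf_eq] at h3
      rw [div_le_div_iff₀ (hpos x (hne0 x hx)) (hpos y (hne0 y hy)), h1, h2] at h3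
      have h4 : c * (LibSch.pw p (LibSch.blk (mA x) (mB x)) * LibSch.pw p (LibSch.comp p A' B')) ≤
          c * (LibSch.pw p (LibSch.blk A' B') * LibSch.pw p (LibSch.comp p (mA x) (mB x))) := by
        linarith
      exact le_of_mul_le_mul_left h4 hc0

theorem comp_ne_zero_of_lt (p : ℝ) (hp : 0 < p) (A₀ : ∀ k, Matrix m₁ (n k) ℂ)
    (B₀ : ∀ k, Matrix m₂ (n k) ℂ)
    (h : LibSch.pw p (LibSch.comp p A₀ B₀) < LibSch.pw p (LibSch.blk A₀ B₀)) :
    LibSch.comp p A₀ B₀ ≠ 0 := by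
  intro h0
  obtain ⟨h1, h2⟩ := comp_eq_zero p hp _ _ h0
  obtain rfl : A₀ = fun k => 0 := funext h1
  obtain rfl : B₀ = fun k => 0 := funext h2
  rw [h0, blk_zero, LibSchTri.s18_pw_zero p hp, LibSchTri.s18_pw_zero p hp] at h
  exact lt_irrefl _ h

/-- a maximiser of the ratio `pw p (blk) / pw p (comp)` -/
theorem exists_ratio_max (p : ℝ) (hp : 0 < p) (A₀ : ∀ k, Matrix m₁ (n k) ℂ)
    (B₀ : ∀ k, Matrix m₂ (n k) ℂ)
    (h : LibSch.pw p (LibSch.comp p A₀ B₀) < LibSch.pw p (LibSch.blk A₀ B₀)) :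
    ∃ R : ℝ, 1 < R ∧ ∃ (A : ∀ k, Matrix m₁ (n k) ℂ) (B : ∀ k, Matrix m₂ (n k) ℂ),
      0 < LibSch.pw p (LibSch.comp p A B) ∧
      LibSch.pw p (LibSch.blk A B) = R * LibSch.pw p (LibSch.comp p A B) ∧
      ∀ (A' : ∀ k, Matrix m₁ (n k) ℂ) (B' : ∀ k, Matrix m₂ (n k) ℂ),
        LibSch.pw p (LibSch.blk A' B') ≤ R * LibSch.pw p (LibSch.comp p A' B') := by
  have hne := comp_ne_zero_of_lt p hp A₀ B₀ h
  obtain ⟨⟨A, B, hpos, hmax⟩, -⟩ := ratio_bdd p hp A₀ B₀ hne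
  have hc0 : 0 < LibSch.pw p (LibSch.comp p A₀ B₀) := pw_pos p _ hne
  refine ⟨LibSch.pw p (LibSch.blk A B) / LibSch.pw p (LibSch.comp p A B), ?_, A, B, hpos,
    (div_mul_cancel₀ _ hpos.ne').symm, fun A' B' => ?_⟩
  · rw [one_lt_div hpos]
    have h1 := hmax A₀ B₀
    by_contra h2
    rw [not_lt] at h2
    nlinarith
  · rw [div_mul_eq_mul_div, le_div_iff₀ hpos]
    exact hmax A' B'

/-- a minimiser of the ratio `pw p (blk) / pw p (comp)` -/
theorem exists_ratio_min (p : ℝ) (hp : 0 < p) (A₀ : ∀ k, Matrix m₁ (n k) ℂ)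
    (B₀ : ∀ k, Matrix m₂ (n k) ℂ)
    (h : LibSch.pw p (LibSch.blk A₀ B₀) < LibSch.pw p (LibSch.comp p A₀ B₀)) :
    ∃ R : ℝ, 0 < R ∧ R < 1 ∧ ∃ (A : ∀ k, Matrix m₁ (n k) ℂ) (B : ∀ k, Matrix m₂ (n k) ℂ),
      0 < LibSch.pw p (LibSch.comp p A B) ∧
      LibSch.pw p (LibSch.blk A B) = R * LibSch.pw p (LibSch.comp p A B) ∧
      ∀ (A' : ∀ k, Matrix m₁ (n k) ℂ) (B' : ∀ k, Matrix m₂ (n k) ℂ),
        R * LibSch.pw p (LibSch.comp p A' B') ≤ LibSch.pw p (LibSch.blk A' B') := by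
  have hc0 : 0 < LibSch.pw p (LibSch.comp p A₀ B₀) :=
    lt_of_le_of_lt (LibSch.pw_nonneg _ _) h
  have hne : LibSch.comp p A₀ B₀ ≠ 0 := by
    intro h0
    rw [h0, LibSchTri.s18_pw_zero p hp] at hc0
    exact lt_irrefl _ hc0
  obtain ⟨-, A, B, hpos, hmin⟩ := ratio_bdd p hp A₀ B₀ hne
  refine ⟨LibSch.pw p (LibSch.blk A B) / LibSch.pw p (LibSch.comp p A B), ?_, ?_, A, B, hpos,
    (div_mul_cancel₀ _ hpos.ne').symm, fun A' B' => ?_⟩
  · refine div_pos (pw_pos p _ fun h0 => ?_) hpos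
    obtain ⟨h1, h2⟩ := blk_eq_zero A B h0
    obtain rfl : A = fun k => 0 := funext h1
    obtain rfl : B = fun k => 0 := funext h2
    apply hpos.ne'
    rw [pw_zero_iff p hp]
    ext i k
    fin_cases i
    · simp [LibSch.comp, (sn_zero_iff p hp _).2 rfl]
    · simp [LibSch.comp, (sn_zero_iff p hp _).2 rfl]
  · rw [div_lt_one hpos]
    have h1 := hmin A₀ B₀
    by_contra h2
    rw [not_lt] at h2
    nlinarith
  · rw [div_mul_eq_mul_div, div_le_iff₀ hpos]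
    exact hmin A' B'

end ext

end Pool.Agent.LibSchTw
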